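import Pool.Agent.H88.PM.Num
import Pool.Agent.H3.PM.Dat

/-!
# Plan M: the part `FlsS`

The slopes of the sheets of `c 2` in the direction of `c 1` are separated: `FlsS` of `VDat`.
-/

set_option autoImplicit false

namespace Pool.PMF

open Finset Real MvPolynomial
open Pool.Agent.H49.Ent Pool.Agent.H32.Dense Pool.STK Pool.KA Pool.KSAT Pool.K2S Pool.PB
  Pool.STAT Pool.GEN Pool.M3F Pool.KM7 Pool.S6C Pool.JPN Pool.PLN Pool.PM
open Pool.PM26 (Afl)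

variable {m : ℕ}

/-- The slope of an affine polynomial is a partial derivative. -/
theorem eval_slope {p : PN} (hp : p.totalDegree ≤ 1) (l : ℕ) :
    eval (fun j => if j = l then (1 : ℝ) else 0) p - eval (fun _ => (0 : ℝ)) p =
      eval (0 : ℕ → ℝ) (pderiv l p) := by
  classical
  have key : ∀ d ∈ p.support, ∀ a : ℝ,
      eval (fun j => if j = l then (1 : ℝ) else 0) (monomial d a) -
        eval (fun _ => (0 : ℝ)) (monomial d a) = eval (0 : ℕ → ℝ) (pderiv l (monomial d a)) := by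
    intro d hd a
    have h1 := (le_totalDegree hd).trans hp
    rw [pderiv_monomial, eval_monomial, eval_monomial, eval_monomial]
    rcases Nat.eq_zero_or_pos (d.sum fun _ e => e) with h0 | h0
    · have h2 : d = 0 := by
        rw [Finsupp.sum] at h0
        ext i
        by_cases hi : i ∈ d.support
        · have := Finset.sum_eq_zero_iff.1 h0 i hi
          simpa using this
        · simpa using hi
      subst h2
      simp
    · have h3 : d.sum (fun _ e => e) = 1 := by omega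
      obtain ⟨i, hi⟩ := (Finsupp.sum_eq_one_iff d).1 h3
      subst hi
      by_cases hil : i = l
      · subst hil
        simp
      · have h4 : (Finsupp.single i 1 : ℕ →₀ ℕ) l = 0 := by
          rw [Finsupp.single_apply, if_neg hil]
        rw [h4]
        simp [hil]
  conv_lhs => rw [p.as_sum]
  conv_rhs => rw [p.as_sum]
  rw [map_sum, map_sum, map_sum, map_sum, ← Finset.sum_sub_distrib]
  exact Finset.sum_congr rfl fun d hd => key d hd _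

/-- **The part `FlsS`.** -/
theorem flsS {S : PCl m} {c : ℕ → Fin m} {VN : VNum} {K : ℕ} {e : ℝ} {N : ℚ → ℚ → ℝ} {q : ℚ}
    {h₀ b b' c₀ : ℝ} (hw1 : VN.w0 ≤ 1) (hpos : Bas S (fun _ F A => 0 < Pe F.p A))
    (hH2 : H2S S VN.w0 VN.w1 e) (he : 0 ≤ e) (hA : ActB N S (c 0)) (hq : 0 < q) (hq1 : q ≤ 1)
    (hN : 2 * e < N 0 q * Real.log 2) (hβ : 0 ≤ VN.β 2) (hh : 0 ≤ h₀) (hw0 : VN.w0 < VN.β 0 + b)
    (hb : 0 < b) (h1 : q + h₀ + 3 * b < b') (h2 : q + h₀ + 7 * b < VN.fall)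
    (h3 : VN.β 2 + h₀ < 1) (h4 : ∀ i < 2, VN.β i + VN.fall < 1 + b)
    (hno : Bas S (fun J F A => ∀ P : ℕ, (VN.β 2 + h₀) * J ≤ P → P ≤ J →
      ¬ Afl F c 2 ⌊VN.w0 * J⌋₊ P A)) (hc : 0 < c₀) : FlsS S c VN K b b' c₀ := by
  classical
  obtain ⟨φ, hφ, hT⟩ := fal_num hw1 hpos hH2 he hA hq hq1 hN hβ hh hw0 hb h1 h2 h3 h4 hno
  obtain ⟨τ, hτ, J₁, hT⟩ := hT c₀ hc
  obtain ⟨τd, hτd, Jd, hps⟩ := hpos
  refine ⟨φ, hφ, min τ τd, lt_min hτ hτd, max J₁ Jd, ?_⟩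
  intro J hJ F A hSA d lv
  have hPA := hps J ((le_max_right _ _).trans hJ) F A (S.mono (min_le_right _ _) hSA)
  obtain ⟨E, hE⟩ : ∃ E : F.Ω × F.Ω → Prop, E = fun e => A e.1 ∧ A e.2 ∧
      d.lb.Shv c ⌊VN.w0 * J⌋₊ ⌊b * J⌋₊ ⌊(VN.fall - b) * J⌋₊ lv e ∧
      1 / 2 ^ ⌊b * J⌋₊ ≤ |nt F ⌊VN.w0 * J⌋₊ e.1 - nt F ⌊VN.w0 * J⌋₊ e.2| := ⟨_, rfl⟩
  have hEe : ∀ e, E e → A e.1 ∧ A e.2 ∧
      d.lb.Shv c ⌊VN.w0 * J⌋₊ ⌊b * J⌋₊ ⌊(VN.fall - b) * J⌋₊ lv e ∧
      1 / 2 ^ ⌊b * J⌋₊ ≤ |nt F ⌊VN.w0 * J⌋₊ e.1 - nt F ⌊VN.w0 * J⌋₊ e.2| := by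
    intro e he
    rw [hE] at he
    exact he
  have hmain := hT J ((le_max_left _ _).trans hJ) F A (S.mono (min_le_left _ _) hSA) d.U d.V d.Q
    d.u d.u' d.z d.z' lv d.gU E d.tri d.aff d.clsU d.lab.cls
    (fun ω hω i hi => d.posU ω hω i (by omega)) d.numU
    (fun e he => by
      have h5 := d.slU e.1 (hEe e he).1 2 (by norm_num) 1 (by norm_num)
      rw [← eval_slope (d.aff _ _)] at h5
      exact h5)
    (fun e he => (hEe e he).2.2.1.1) (fun e he => (hEe e he).2.2.1.2.1)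
    (fun e he => (hEe e he).2.2.1.2.2) (fun e he => (hEe e he).2.2.2)
  refine le_trans ?_ hmain
  have hlA : IsLaw (pA F A) := Pool.K2S.isLaw_cond F.isLaw hPA
  rw [Pool.K2S.Pe_eq, Pool.K2S.Pe_eq]
  refine Finset.sum_le_sum fun v _ => ?_
  have hv0 := (P2_isLaw hlA (slam F ⌊VN.w0 * J⌋₊)).nonneg v
  by_cases hv : 0 < P2 (pA F A) (slam F ⌊VN.w0 * J⌋₊) v
  · have h5 := (P2_pos hlA v).1 hv
    have hsA : ∀ ω, 0 < pA F A ω → A ω := fun ω hω =>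
      of_eq_true ((cond_pos_iff F.isLaw.nonneg A True ω).1 hω).2
    split_ifs with h6 h7 h7
    · exact le_rfl
    · exfalso
      refine h7 ⟨?_, ?_, ?_⟩
      · rw [hE]
        exact ⟨hsA _ h5.1, hsA _ h5.2.1, h6.1, h6.2.2.1⟩
      · rw [hE]
        refine ⟨hsA _ h5.2.1, hsA _ h5.1, h6.2.1, ?_⟩
        rw [abs_sub_comm]
        exact h6.2.2.1
      · exact not_le.1 h6.2.2.2
    · exact hv0
    · exact le_rfl
  · have hv1 : P2 (pA F A) (slam F ⌊VN.w0 * J⌋₊) v = 0 := le_antisymm (not_lt.1 hv) hv0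
    have hv2 : q2 F A ⌊VN.w0 * J⌋₊ v = 0 := hv1
    rw [hv1, hv2]
    split_ifs <;> exact le_rfl

end Pool.PMF
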