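import Pool.Agent.H53.JM.Dens
import Pool.Agent.H26.PLN.Two
import Pool.Agent.H45.RPL.Hyp

/-!
# The active velocity, given the exact point and few bits

`act_pair`: for a law `P` with a projection to the samples of a member, and a variable `K` which is
few bits given the exact point of the projection, the active velocity is not near a function of the
exact point and of `K`, with probability more than `c`.
-/

set_option autoImplicit false

namespace Pool.PMF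

open Finset Real
open Pool.Agent.H49.Ent Pool.Agent.H32.Dense Pool.STK Pool.KA Pool.KSAT Pool.K2S Pool.PB Pool.S6C
open Pool.GEN
open Pool.KM7 (P2 P2_isLaw P2_fst Psh)

section pure

variable {Ω E : Type} [Fintype Ω] [Fintype E]

/-- The image of a law on an event. -/
noncomputable def img (P : E → ℝ) (pr : E → Ω) (G : E → Prop) : Ω → ℝ :=
  law (Pool.Agent.H49.Ent.cond P G True) pr

omit [Fintype Ω] in
theorem img_psh (P : E → ℝ) (pr : E → Ω) (G : E → Prop) :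
    Psh (Pool.Agent.H49.Ent.cond P G True) pr (img P pr G) := fun _ => rfl

theorem img_isLaw {P : E → ℝ} (hP : IsLaw P) (pr : E → Ω) {G : E → Prop} (hG : 0 < Pe P G) :
    IsLaw (img P pr G) := by
  classical
  have h1 := Pool.K2S.isLaw_cond hP hG
  refine ⟨fun ω => law_nonneg h1.nonneg _ _, ?_⟩
  have h2 := (img_psh P pr G).Ex_eq (fun _ => (1 : ℝ))
  unfold Ex at h2
  simp only [mul_one] at h2
  rw [← h2]
  exact h1.sum_one

omit [Fintype Ω] in
theorem img_le {P : E → ℝ} {p : Ω → ℝ} (hP : IsLaw P) {pr : E → Ω} (hpr : Psh P pr p)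
    {G : E → Prop} (ω : Ω) : img P pr G ω ≤ 1 / Pe P G * p ω := by
  classical
  rw [← hpr ω]
  unfold img law
  rw [Finset.mul_sum]
  refine Finset.sum_le_sum fun e _ => ?_
  have h0 : 0 ≤ Pe P G := Pool.K2S.Pe_nonneg hP G
  split_ifs with h
  · rw [Pool.JPR.cond_ev]
    split_ifs
    · rw [div_eq_inv_mul, one_div]
    · exact mul_nonneg (by positivity) (hP.nonneg e)
  · rw [mul_zero]

end pure

variable {m : ℕ}

/-- **The active velocity is not near a function of the exact point and of few bits.** -/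
theorem act_pair {S : PCl m} {k : Fin m} {N : ℚ → ℚ → ℝ} (hS : ActB N S k) {g : ℚ} (hg : 0 < g)
    (hg1 : g ≤ 1) {c e : ℝ} (hc : 0 < c) (hc1 : c ≤ 1) (he : 0 ≤ e)
    (hN : e < c * (N 0 g * Real.log 2)) :
    ∃ ρ : ℝ, 0 < ρ ∧ Bas S (fun J F A => ∀ (E κ : Type) [Fintype E] (P : E → ℝ) (pr : E → F.Ω)
      (K : E → κ) (f : PtT F → κ → ℝ), IsLaw P → Psh P pr (Pool.Agent.H49.Ent.cond F.p A True) →
      0 < Pe F.p A → CH P K (fun v => ptr F J (pr v)) ≤ (e + ρ) * J →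
      Pe P (fun v => |F.d (pr v) k - f (ptr F J (pr v)) (K v)| ≤ 1 / 2 ^ ⌊(g : ℝ) * J⌋₊) ≤ c) := by
  classical
  have hl2 : 0 < Real.log 2 := Real.log_pos (by norm_num)
  obtain ⟨Nl, hNl⟩ : ∃ Nl, Nl = N 0 g * Real.log 2 := ⟨_, rfl⟩
  rw [← hNl] at hN
  have hNl0 : 0 < Nl := by
    by_contra h
    push Not at h
    have : c * Nl ≤ 0 := mul_nonpos_of_nonneg_of_nonpos hc.le h
    linarith
  obtain ⟨γ, hγ⟩ : ∃ γ, γ = c * Nl - e := ⟨_, rfl⟩
  have hγ0 : 0 < γ := by rw [hγ]; linarith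
  have hγN : γ ≤ Nl := by
    rw [hγ]
    nlinarith
  obtain ⟨τ, hτ, J₁, hT⟩ := hS 0 g le_rfl hg.le hg1 (γ / (4 * Real.log 2)) (by positivity)
  obtain ⟨η, hη⟩ : ∃ η, η = γ / (8 * Nl) := ⟨_, rfl⟩
  have hη0 : 0 < η := by rw [hη]; positivity
  obtain ⟨J₂, hJ₂⟩ := exists_nat_ge (4 * Real.log 9 / γ + 1)
  obtain ⟨J₃, hJ₃⟩ := exists_nat_ge (-Real.log η / (τ / 2))
  refine ⟨γ / 4, by linarith, τ / 2, by linarith, max J₁ (max J₂ J₃), ?_⟩
  intro J hJ F A hA E κ _ P pr K f hP hpr hPA hK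
  by_contra hcon
  push Not at hcon
  obtain ⟨G, hG⟩ : ∃ G : E → Prop, G = fun v => |F.d (pr v) k - f (ptr F J (pr v)) (K v)| ≤
    1 / 2 ^ ⌊(g : ℝ) * J⌋₊ := ⟨_, rfl⟩
  rw [← hG] at hcon
  have hPG : 0 < Pe P G := hc.trans hcon
  have hJ0 : (0 : ℝ) ≤ J := Nat.cast_nonneg J
  have hJ2' : ((J₂ : ℕ) : ℝ) ≤ J := by
    exact_mod_cast (le_max_left _ _).trans ((le_max_right _ _).trans hJ)
  have hJ3' : ((J₃ : ℕ) : ℝ) ≤ J := by
    exact_mod_cast (le_max_right _ _).trans ((le_max_right _ _).trans hJ)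
  have hη1 : Real.exp (-(τ / 2 * J)) ≤ η := by
    rw [← Real.le_log_iff_exp_le hη0]
    have h1 : -Real.log η / (τ / 2) ≤ J := hJ₃.trans hJ3'
    rw [div_le_iff₀ (by linarith)] at h1
    linarith
  obtain ⟨r, hr⟩ : ∃ r, r = ⌊(g : ℝ) * J⌋₊ := ⟨_, rfl⟩
  rw [← hr] at hG
  have hpA : IsLaw (Pool.Agent.H49.Ent.cond F.p A True) := Pool.K2S.isLaw_cond F.isLaw hPA
  have hcd : IsLaw (Pool.Agent.H49.Ent.cond P G True) := Pool.K2S.isLaw_cond hP hPG
  -- lower bound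
  have h1 := Pool.JPR.layer (h₀ := (Nl - γ / 4) * J) (C := 1 / c) hpA (img_isLaw hP pr hPG)
    (by rw [le_div_iff₀ hc, one_mul]; exact hc1)
    (fun ω => (img_le hP hpr ω).trans (mul_le_mul_of_nonneg_right
      (one_div_le_one_div_of_le hc hcon.le) (hpA.nonneg ω)))
    (fun ω => F.D r ω k) (fun ω => (F.D ⌊((0 : ℚ) : ℝ) * J⌋₊ ω, (F.X J ω, F.W ω)))
    (by
      refine mul_nonneg ?_ hJ0
      linarith) hη0 (fun B hB => by
      rw [Pool.JPR.cond_and F.p hPA.ne']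
      rw [Pool.JPR.Pe_cnd, le_div_iff₀ hPA] at hB
      have hSB : S.St (τ / 2 + τ / 2) J F (fun ω => A ω ∧ B ω) :=
        S.res (by linarith) hA (fun ω h => h.1)
          ((mul_le_mul_of_nonneg_right hη1 hPA.le).trans hB)
      rw [add_halves] at hSB
      have h2 := hT J ((le_max_left _ _).trans hJ) F _ hSB
      dsimp only at h2
      rw [← hr] at h2
      refine le_trans (le_of_eq ?_) h2
      rw [sub_mul, sub_mul, ← hNl]
      field_simp)
  rw [← (img_psh P pr G).CH_eq] at h1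
  change (1 - 2 * (1 / c) * η) * ((Nl - γ / 4) * J) ≤
    CH (Pool.Agent.H49.Ent.cond P G True) (fun v => F.D r (pr v) k)
      (fun v => (F.D ⌊((0 : ℚ) : ℝ) * J⌋₊ (pr v), (F.X J (pr v), F.W (pr v)))) at h1
  -- upper bound
  have h2 : CH (Pool.Agent.H49.Ent.cond P G True) K (fun v => ptr F J (pr v)) ≤
      (e + γ / 4) * J / c := by
    have h3 := Pool.RPL.CH_ev_le hP.nonneg K (fun v => ptr F J (pr v)) G
    have h4 : 0 ≤ CH (Pool.Agent.H49.Ent.cond P G True) K (fun v => ptr F J (pr v)) :=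
      CH_nonneg hcd.nonneg _ _
    rw [le_div_iff₀ hc]
    calc CH (Pool.Agent.H49.Ent.cond P G True) K (fun v => ptr F J (pr v)) * c ≤
          CH (Pool.Agent.H49.Ent.cond P G True) K (fun v => ptr F J (pr v)) * Pe P G :=
          mul_le_mul_of_nonneg_left hcon.le h4
      _ ≤ _ := by
          rw [mul_comm]
          exact h3.trans hK
  have h3 : CH (Pool.Agent.H49.Ent.cond P G True) (fun v => F.D r (pr v) k)
      (fun v => (K v, (F.D ⌊((0 : ℚ) : ℝ) * J⌋₊ (pr v), (F.X J (pr v), F.W (pr v))))) ≤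
      Real.log (2 * (2 * 2) + 1) := by
    refine Pool.UST.CH_near_int hcd _ _ (fun s => 2 ^ r * f s.2.2 s.1) fun v hv => ?_
    have hGv : G v := of_eq_true ((cond_pos_iff hP.nonneg G True v).1 hv).2
    rw [hG] at hGv
    have hp : (0 : ℝ) < 2 ^ r := by positivity
    have h5 : |2 ^ r * F.d (pr v) k - 2 ^ r * f (ptr F J (pr v)) (K v)| ≤ 1 := by
      rw [← mul_sub, abs_mul, abs_of_pos hp]
      calc (2 : ℝ) ^ r * |F.d (pr v) k - f (ptr F J (pr v)) (K v)| ≤ 2 ^ r * (1 / 2 ^ r) :=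
            mul_le_mul_of_nonneg_left hGv hp.le
        _ = 1 := by field_simp
    have e1 : ((F.D r (pr v) k : ℤ) : ℝ) = ((⌊(2 : ℝ) ^ r * F.d (pr v) k⌋ : ℤ) : ℝ) := rfl
    have h6 := Int.floor_le ((2 : ℝ) ^ r * F.d (pr v) k)
    have h7 := Int.lt_floor_add_one ((2 : ℝ) ^ r * F.d (pr v) k)
    rw [e1]
    show |((⌊(2 : ℝ) ^ r * F.d (pr v) k⌋ : ℤ) : ℝ) - 2 ^ r * f (ptr F J (pr v)) (K v)| ≤ 2
    rw [abs_le] at h5 ⊢
    constructor <;> linarith [h5.1, h5.2]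
  have h4 : CH (Pool.Agent.H49.Ent.cond P G True) (fun v => F.D r (pr v) k)
      (fun v => (F.D ⌊((0 : ℚ) : ℝ) * J⌋₊ (pr v), (F.X J (pr v), F.W (pr v)))) ≤
      CH (Pool.Agent.H49.Ent.cond P G True) K
        (fun v => (F.D ⌊((0 : ℚ) : ℝ) * J⌋₊ (pr v), (F.X J (pr v), F.W (pr v)))) +
      CH (Pool.Agent.H49.Ent.cond P G True) (fun v => F.D r (pr v) k)
        (fun v => (K v, (F.D ⌊((0 : ℚ) : ℝ) * J⌋₊ (pr v), (F.X J (pr v), F.W (pr v))))) :=
    CH_le_add hcd.nonneg _ _ _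
  have h5 : CH (Pool.Agent.H49.Ent.cond P G True) K
      (fun v => (F.D ⌊((0 : ℚ) : ℝ) * J⌋₊ (pr v), (F.X J (pr v), F.W (pr v)))) ≤
      CH (Pool.Agent.H49.Ent.cond P G True) K (fun v => ptr F J (pr v)) :=
    CH_mono_cond hcd.nonneg fun _ _ _ _ h => (Prod.ext_iff.1 h).2
  have h10 : (2 * (2 * 2) + 1 : ℝ) = 9 := by norm_num
  rw [h10] at h3
  have h6 : (1 - 2 * (1 / c) * η) * ((Nl - γ / 4) * J) ≤ (e + γ / 4) * J / c + Real.log 9 :=
    h1.trans (h4.trans (add_le_add (h5.trans h2) h3))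
  have h7 : c * ((1 - 2 * (1 / c) * η) * ((Nl - γ / 4) * J)) ≤
      c * ((e + γ / 4) * J / c + Real.log 9) := mul_le_mul_of_nonneg_left h6 hc.le
  have h8 : c * ((1 - 2 * (1 / c) * η) * ((Nl - γ / 4) * J)) =
      (c - 2 * η) * ((Nl - γ / 4) * J) := by
    field_simp
  have h9 : c * ((e + γ / 4) * J / c + Real.log 9) = (e + γ / 4) * J + c * Real.log 9 := by
    field_simp
  rw [h8, h9] at h7
  have h11 : 2 * η * Nl = γ / 4 := by
    rw [hη]
    field_simp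
    ring
  have h12 : (γ / 4) * J ≤ Real.log 9 := by
    have e1 : (c - 2 * η) * (Nl - γ / 4) - (e + γ / 4) =
        (c * Nl - e) - 2 * η * Nl - c * (γ / 4) - γ / 4 + 2 * η * (γ / 4) := by ring
    have e2 : γ / 4 ≤ (c - 2 * η) * (Nl - γ / 4) - (e + γ / 4) := by
      rw [e1, h11, ← hγ]
      have : 0 ≤ 2 * η * (γ / 4) := by positivity
      nlinarith
    have e3 : (γ / 4) * J ≤ ((c - 2 * η) * (Nl - γ / 4) - (e + γ / 4)) * J :=
      mul_le_mul_of_nonneg_right e2 hJ0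
    have e4 : c * Real.log 9 ≤ Real.log 9 := by
      have : 0 ≤ Real.log 9 := Real.log_nonneg (by norm_num)
      nlinarith
    nlinarith
  have h13 : 4 * Real.log 9 / γ < J := by linarith
  rw [div_lt_iff₀ hγ0] at h13
  linarith

end Pool.PMF
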