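import Pool.Agent.H22.M.Stm

/-!
# Two leaves through a line

Affine functions of natural time and of two natural coordinates, along a line in an affine chart.
`nea`: exact natural coordinates. `lev_line`: an affine function along a line is affine in natural
time. `two_pt`: two leaves through the points of two samples of the line, with separated times, are
near on the whole line. `dir_of`: if the slopes in the second coordinate agree and those in the first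
one do not, the velocity of the first coordinate is near a function of the two leaves.
`co_of`: if both slopes agree, all the coefficients agree.
-/

set_option autoImplicit false

namespace Pool.PMF

open Finset Real MvPolynomial
open Pool.Agent.H49.Ent Pool.Agent.H32.Dense Pool.STK Pool.KA Pool.KSAT Pool.K2S Pool.PB
  Pool.STAT Pool.GEN Pool.M3F Pool.KM7 Pool.S6C Pool.JPN
open Pool.PM (nx nt lev lfv)

/-! ### Affine functions -/

/-- An affine polynomial along a line. -/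
theorem eval_line {P : PN} (hd : P.totalDegree ≤ 1) (x v : ℕ → ℝ) (s : ℝ) :
    eval (fun i => x i + s * v i) P = eval x P + s * (eval (fun i => x i + v i) P - eval x P) := by
  classical
  rw [eval_eq, eval_eq, eval_eq, ← Finset.sum_sub_distrib, Finset.mul_sum,
    ← Finset.sum_add_distrib]
  refine Finset.sum_congr rfl fun d hd' => ?_
  have h1 : (d.sum fun _ e => e) ≤ 1 := (le_totalDegree hd').trans hd
  rcases Nat.le_one_iff_eq_zero_or_eq_one.1 h1 with h0 | h0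
  · have h2 : d = 0 := by
      rw [Finsupp.sum, Finset.sum_eq_zero_iff] at h0
      ext i
      by_cases hi : i ∈ d.support
      · exact h0 i hi
      · exact Finsupp.notMem_support_iff.1 hi
    subst h2
    simp
  · have h2 : ∃ i, d = Finsupp.single i 1 := by
      rw [Finsupp.sum] at h0
      obtain ⟨i, hi⟩ : ∃ i, i ∈ d.support := by
        by_contra hcon
        push Not at hcon
        have h3 : d.support = ∅ := Finset.eq_empty_of_forall_notMem hcon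
        rw [h3, Finset.sum_empty] at h0
        exact zero_ne_one h0
      refine ⟨i, ?_⟩
      have h4 : d i ≤ 1 := by
        rw [← h0]
        exact Finset.single_le_sum (f := fun j => d j) (fun _ _ => Nat.zero_le _) hi
      have h5 : 0 < d i := Nat.pos_of_ne_zero (Finsupp.mem_support_iff.1 hi)
      have h6 : d i = 1 := by omega
      have h7 : ∑ j ∈ d.support.erase i, d j = 0 := by
        have := Finset.add_sum_erase d.support (fun j => d j) hi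
        omega
      ext j
      by_cases hj : j = i
      · subst hj
        rw [Finsupp.single_eq_same, h6]
      · rw [Finsupp.single_eq_of_ne hj]
        by_cases hjs : j ∈ d.support
        · exact (Finset.sum_eq_zero_iff.1 h7) j (Finset.mem_erase.2 ⟨hj, hjs⟩)
        · exact Finsupp.notMem_support_iff.1 hjs
    obtain ⟨i, rfl⟩ := h2
    have h3 : (Finsupp.single i 1 : ℕ →₀ ℕ).support = {i} :=
      Finsupp.support_single i one_ne_zero
    rw [h3, Finset.prod_singleton, Finset.prod_singleton, Finset.prod_singleton,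
      Finsupp.single_eq_same, pow_one, pow_one, pow_one]
    ring

/-- Two values of an affine function. -/
theorem sl_le {a b τ₁ τ₂ ε H : ℝ} (h1 : |a + b * τ₁| ≤ ε) (h2 : |a + b * τ₂| ≤ ε)
    (hs : 1 ≤ H * |τ₁ - τ₂|) (hH : 0 ≤ H) : |b| ≤ 2 * ε * H := by
  have h3 : |b| * |τ₁ - τ₂| ≤ 2 * ε := by
    rw [← abs_mul]
    have : b * (τ₁ - τ₂) = (a + b * τ₁) - (a + b * τ₂) := by ring
    rw [this]
    exact (abs_sub _ _).trans (by linarith)
  have h4 : |b| * 1 ≤ |b| * (H * |τ₁ - τ₂|) := mul_le_mul_of_nonneg_left hs (abs_nonneg _)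
  calc |b| = |b| * 1 := (mul_one _).symm
    _ ≤ |b| * (H * |τ₁ - τ₂|) := h4
    _ = H * (|b| * |τ₁ - τ₂|) := by ring
    _ ≤ H * (2 * ε) := mul_le_mul_of_nonneg_left h3 hH
    _ = 2 * ε * H := by ring

/-- The values of an affine function on a segment. -/
theorem vl_le {a b τ₁ τ₂ ε H τ : ℝ} (h1 : |a + b * τ₁| ≤ ε) (h2 : |a + b * τ₂| ≤ ε)
    (hs : 1 ≤ H * |τ₁ - τ₂|) (hH : 1 ≤ H) (hτ : |τ - τ₁| ≤ 1) : |a + b * τ| ≤ 3 * ε * H := by
  have hε : 0 ≤ ε := (abs_nonneg _).trans h1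
  have h3 := sl_le h1 h2 hs (by linarith)
  have h4 : a + b * τ = (a + b * τ₁) + b * (τ - τ₁) := by ring
  rw [h4]
  refine (abs_add_le _ _).trans ?_
  rw [abs_mul]
  have h5 : |b| * |τ - τ₁| ≤ (2 * ε * H) * 1 :=
    mul_le_mul h3 hτ (abs_nonneg _) (by positivity)
  nlinarith

/-! ### Lines in an affine chart -/

variable {m J : ℕ} {F : Fam m J}

/-- The exact point. -/
noncomputable def xea (F : Fam m J) (c : ℕ → Fin m) (ω : F.Ω) (i : ℕ) : ℝ :=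
  if i = 0 then F.t ω else F.x ω (c (i - 1))

/-- The velocity of the exact point. -/
noncomputable def vea (F : Fam m J) (c : ℕ → Fin m) (ω : F.Ω) (i : ℕ) : ℝ :=
  if i = 0 then 1 else F.d ω (c (i - 1))

/-- The exact natural coordinates in the chart `Q`. -/
noncomputable def nea (F : Fam m J) (c : ℕ → Fin m) (Q : ℕ → PN) (g : ℕ → ℕ) (ω : F.Ω) (i : ℕ) :
    ℝ := (2 : ℝ) ^ g i * (F.x ω (c i) - eval (xea F c ω) (Q (i + 1)))

/-- The natural velocities. -/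
noncomputable def vel (F : Fam m J) (c : ℕ → Fin m) (Q : ℕ → PN) (g : ℕ → ℕ) (w : ℕ) (ω : F.Ω)
    (i : ℕ) : ℝ := (2 : ℝ) ^ g i / 2 ^ w * (F.d ω (c i) -
      (eval (fun j => xea F c ω j + vea F c ω j) (Q (i + 1)) - eval (xea F c ω) (Q (i + 1))))

theorem xea_line {c : ℕ → Fin m} {ω ω' : F.Ω} (hu : F.u ω' = F.u ω) (hd : F.d ω' = F.d ω) :
    xea F c ω' = fun i => xea F c ω i + (F.t ω' - F.t ω) * vea F c ω i := by
  funext i
  unfold xea vea
  split_ifs with h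
  · ring
  · unfold Fam.x
    rw [hu, hd]
    ring

theorem slam_eq {w : ℕ} {ω ω' : F.Ω} (h : slam F w ω' = slam F w ω) :
    F.u ω' = F.u ω ∧ F.d ω' = F.d ω ∧ F.T1 w ω' = F.T1 w ω := by
  have h1 := Prod.ext_iff.1 h
  have h2 := Prod.ext_iff.1 h1.1
  have h3 := Prod.ext_iff.1 h1.2
  exact ⟨h2.1, h2.2, h3.2⟩

/-- **The natural coordinates along a line.** -/
theorem nea_line {c : ℕ → Fin m} {Q : ℕ → PN} (hQ : ∀ i, (Q i).totalDegree ≤ 1) {g : ℕ → ℕ}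
    {w : ℕ} {ω ω' : F.Ω} (h : slam F w ω' = slam F w ω) (i : ℕ) :
    nea F c Q g ω' i = nea F c Q g ω i + (nt F w ω' - nt F w ω) * vel F c Q g w ω i := by
  obtain ⟨hu, hd, hT⟩ := slam_eq h
  have hp : (0 : ℝ) < 2 ^ w := by positivity
  unfold nea vel nt
  rw [xea_line hu hd, eval_line (hQ _), hT]
  have h1 : F.x ω' (c i) = F.x ω (c i) + (F.t ω' - F.t ω) * F.d ω (c i) := by
    unfold Fam.x
    rw [hu, hd]
    ring
  rw [h1]
  field_simp
  ring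

/-- The value of an affine function at a sample. -/
noncomputable def lne (F : Fam m J) (c : ℕ → Fin m) (Q : ℕ → PN) (g : ℕ → ℕ) (w : ℕ)
    (q : Fin 4 → ℝ) (ω : F.Ω) : ℝ := lev q (nt F w ω) (nea F c Q g ω 0) (nea F c Q g ω 1)

/-- The slope of an affine function along the line. -/
noncomputable def lsl (F : Fam m J) (c : ℕ → Fin m) (Q : ℕ → PN) (g : ℕ → ℕ) (w : ℕ)
    (q : Fin 4 → ℝ) (ω : F.Ω) : ℝ := q 1 + q 2 * vel F c Q g w ω 0 + q 3 * vel F c Q g w ω 1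

/-- **An affine function along a line.** -/
theorem lev_line {c : ℕ → Fin m} {Q : ℕ → PN} (hQ : ∀ i, (Q i).totalDegree ≤ 1) {g : ℕ → ℕ}
    {w : ℕ} (q : Fin 4 → ℝ) {ω ω' : F.Ω} (h : slam F w ω' = slam F w ω) :
    lne F c Q g w q ω' = (lne F c Q g w q ω - lsl F c Q g w q ω * nt F w ω) +
      lsl F c Q g w q ω * nt F w ω' := by
  unfold lne lev lsl
  rw [nea_line hQ h 0, nea_line hQ h 1]
  ring

theorem lev_sub (p q : Fin 4 → ℝ) (τ y z : ℝ) :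
    lev p τ y z - lev q τ y z = lev (fun i => p i - q i) τ y z := by
  unfold lev
  ring

/-- The natural time. -/
theorem nt_bd (F : Fam m J) {w : ℕ} (hw : w ≤ J) (ω : F.Ω) : 0 ≤ nt F w ω ∧ nt F w ω ≤ 1 := by
  have e1 : (2 : ℝ) ^ w * F.t ω = (F.T ω : ℝ) / 2 ^ (J - w) := by
    unfold Fam.t
    rw [show (2 : ℝ) ^ J = 2 ^ w * 2 ^ (J - w) by rw [← pow_add]; congr 1; omega]
    field_simp
  unfold nt
  rw [e1]
  have e2 : ((2 : ℝ) ^ (J - w)) = ((2 ^ (J - w) : ℕ) : ℝ) := by push_cast; rfl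
  have e3 : (F.T1 w ω : ℕ) = F.T ω / 2 ^ (J - w) := rfl
  rw [e3, e2]
  have hq : (0 : ℝ) < ((2 ^ (J - w) : ℕ) : ℝ) := by positivity
  have e4 : ((F.T ω / 2 ^ (J - w) : ℕ) : ℝ) ≤ (F.T ω : ℝ) / ((2 ^ (J - w) : ℕ) : ℝ) :=
    Nat.cast_div_le
  have e5 : (F.T ω : ℝ) / ((2 ^ (J - w) : ℕ) : ℝ) < ((F.T ω / 2 ^ (J - w) : ℕ) : ℝ) + 1 := by
    rw [div_lt_iff₀ hq]
    have := Nat.lt_div_mul_add (a := F.T ω) (b := 2 ^ (J - w)) (by positivity)
    have h7 : (F.T ω : ℝ) < ((F.T ω / 2 ^ (J - w) * 2 ^ (J - w) + 2 ^ (J - w) : ℕ) : ℝ) := by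
      exact_mod_cast this
    refine h7.trans_le (le_of_eq ?_)
    push_cast
    ring
  constructor <;> linarith

theorem nt_near (F : Fam m J) {w : ℕ} (hw : w ≤ J) (ω ω' : F.Ω) :
    |nt F w ω - nt F w ω'| ≤ 1 := by
  obtain ⟨h1, h2⟩ := nt_bd F hw ω
  obtain ⟨h3, h4⟩ := nt_bd F hw ω'
  rw [abs_le]
  constructor <;> linarith


/-- Two affine functions through a point. -/
theorem lev_pt {q q' : Fin 4 → ℝ} {v τ y z y' z' ε H r : ℝ} (h1 : |v - lev q τ y z| ≤ ε)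
    (h2 : |v - lev q' τ y z| ≤ ε) (hq : ∀ i, |q i| ≤ H) (hq' : ∀ i, |q' i| ≤ H)
    (hy : |y' - y| ≤ r) (hz : |z' - z| ≤ r) :
    |lev (fun i => q i - q' i) τ y' z'| ≤ 2 * ε + 4 * H * r := by
  have hH : 0 ≤ H := (abs_nonneg _).trans (hq 0)
  have e1 : lev (fun i => q i - q' i) τ y' z' = ((v - lev q' τ y z) - (v - lev q τ y z)) +
      (q 2 - q' 2) * (y' - y) + (q 3 - q' 3) * (z' - z) := by
    unfold lev
    ring
  have h3 : ∀ i, |q i - q' i| ≤ 2 * H := fun i =>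
    (abs_sub _ _).trans (by linarith [hq i, hq' i])
  have h4 : |(q 2 - q' 2) * (y' - y)| ≤ 2 * H * r := by
    rw [abs_mul]
    exact mul_le_mul (h3 2) hy (abs_nonneg _) (by positivity)
  have h5 : |(q 3 - q' 3) * (z' - z)| ≤ 2 * H * r := by
    rw [abs_mul]
    exact mul_le_mul (h3 3) hz (abs_nonneg _) (by positivity)
  rw [e1]
  refine (abs_add_le _ _).trans ?_
  have h6 := abs_add_le ((v - lev q' τ y z) - (v - lev q τ y z)) ((q 2 - q' 2) * (y' - y))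
  have h7 := abs_sub (v - lev q' τ y z) (v - lev q τ y z)
  linarith

/-! ### Pairs of samples -/

variable {V₀ V₁ : Type}

/-- **A good pair**: the first point is on its own leaf and on the leaf of the second sample; sizes,
separated times, rounding. -/
structure Gd (F : Fam m J) (c : ℕ → Fin m) (P : V₀ → ℕ → PN) (z₀ : PtT F → V₀)
    (z₁ : PtT F → V₁) (lf : V₁ → V₀ → Fin 4 → ℝ) (g : ℕ → ℕ) (w₀ h L : ℕ) (e : F.Ω × F.Ω) :
    Prop where
  own : |nx F c P z₀ g e.1 2 -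
    lfv F c P z₀ g w₀ (lf (z₁ (ptr F J e.1)) (z₀ (ptr F J e.1))) e.1| ≤ 1 / 2 ^ L
  onl : |nx F c P z₀ g e.1 2 -
    lfv F c P z₀ g w₀ (lf (z₁ (ptr F J e.2)) (z₀ (ptr F J e.1))) e.1| ≤ 1 / 2 ^ L
  siz : ∀ i : Fin 4, |lf (z₁ (ptr F J e.1)) (z₀ (ptr F J e.1)) i| ≤ 2 ^ h ∧
    |lf (z₁ (ptr F J e.2)) (z₀ (ptr F J e.1)) i| ≤ 2 ^ h
  tsp : 1 / 2 ^ h ≤ |nt F w₀ e.1 - nt F w₀ e.2|
  rnd : ∀ i < 2, |nea F c (P (z₀ (ptr F J e.1))) g e.1 i - nx F c P z₀ g e.1 i| ≤ 2 ^ h / 2 ^ L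

variable {c : ℕ → Fin m} {P : V₀ → ℕ → PN} {z₀ : PtT F → V₀} {z₁ : PtT F → V₁}
  {lf : V₁ → V₀ → Fin 4 → ℝ} {g : ℕ → ℕ} {w h L : ℕ}

/-- The difference of the leaves of two samples. -/
noncomputable def dlf (F : Fam m J) (z₀ : PtT F → V₀) (z₁ : PtT F → V₁) (lf : V₁ → V₀ → Fin 4 → ℝ)
    (ω σ : F.Ω) (i : Fin 4) : ℝ :=
  lf (z₁ (ptr F J ω)) (z₀ (ptr F J ω)) i - lf (z₁ (ptr F J σ)) (z₀ (ptr F J ω)) i

theorem Gd.pt {ω σ : F.Ω} (H : Gd F c P z₀ z₁ lf g w h L (ω, σ)) :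
    |lne F c (P (z₀ (ptr F J ω))) g w (dlf F z₀ z₁ lf ω σ) ω| ≤ 6 * 4 ^ h / 2 ^ L := by
  have h1 := lev_pt (y' := nea F c (P (z₀ (ptr F J ω))) g ω 0)
    (z' := nea F c (P (z₀ (ptr F J ω))) g ω 1) H.own H.onl (fun i => (H.siz i).1)
    (fun i => (H.siz i).2) (H.rnd 0 (by norm_num)) (H.rnd 1 (by norm_num))
  refine h1.trans ?_
  have hL : (0 : ℝ) < 2 ^ L := by positivity
  have h2 : (1 : ℝ) ≤ 4 ^ h := one_le_pow₀ (by norm_num)
  have h3 : (2 : ℝ) ^ h * 2 ^ h = 4 ^ h := by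
    rw [← mul_pow]
    norm_num
  have e1 : 2 * (1 / (2 : ℝ) ^ L) + 4 * 2 ^ h * (2 ^ h / 2 ^ L) = (2 + 4 * (2 ^ h * 2 ^ h)) / 2 ^ L := by
    field_simp
  rw [e1, h3]
  gcongr
  linarith

/-- **Two leaves through two samples of a line** are near on the line. -/
theorem two_pt (hQ : ∀ v i, (P v i).totalDegree ≤ 1) (hw : w ≤ J) {ω σ ρ : F.Ω}
    (h0 : z₀ (ptr F J ω) = z₀ (ptr F J σ)) (hs : slam F w σ = slam F w ω)
    (hs' : slam F w ρ = slam F w ω) (H : Gd F c P z₀ z₁ lf g w h L (ω, σ))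
    (H' : Gd F c P z₀ z₁ lf g w h L (σ, ω)) :
    |lne F c (P (z₀ (ptr F J ω))) g w (dlf F z₀ z₁ lf ω σ) ρ| ≤ 18 * 8 ^ h / 2 ^ L := by
  have h1 := H.pt
  have h2 := H'.pt
  have h3 : lne F c (P (z₀ (ptr F J σ))) g w (dlf F z₀ z₁ lf σ ω) σ =
      -lne F c (P (z₀ (ptr F J ω))) g w (dlf F z₀ z₁ lf ω σ) σ := by
    unfold lne lev dlf
    rw [h0]
    ring
  rw [h3, abs_neg] at h2
  have hQ' := hQ (z₀ (ptr F J ω))
  have e1 := lev_line (c := c) (g := g) hQ' (dlf F z₀ z₁ lf ω σ) (rfl : slam F w ω = slam F w ω)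
  have e2 := lev_line (c := c) (g := g) hQ' (dlf F z₀ z₁ lf ω σ) hs
  have e3 := lev_line (c := c) (g := g) hQ' (dlf F z₀ z₁ lf ω σ) hs'
  rw [e3]
  rw [e2] at h2
  rw [e1] at h1
  have hp : (0 : ℝ) < 2 ^ h := by positivity
  have h4 : 1 ≤ (2 : ℝ) ^ h * |nt F w ω - nt F w σ| := by
    have := H.tsp
    simp only at this
    rw [div_le_iff₀ hp] at this
    linarith
  have h5 := vl_le h1 h2 h4 (one_le_pow₀ (by norm_num)) (nt_near F hw ρ ω)
  refine h5.trans (le_of_eq ?_)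
  have e4 : (4 : ℝ) ^ h * 2 ^ h = 8 ^ h := by
    rw [← mul_pow]
    norm_num
  calc 3 * (6 * 4 ^ h / 2 ^ L) * (2 : ℝ) ^ h = 18 * (4 ^ h * 2 ^ h) / 2 ^ L := by ring
    _ = _ := by rw [e4]

/-- **Two samples with a common third sample.** -/
theorem three_pt (hQ : ∀ v i, (P v i).totalDegree ≤ 1) (hw : w ≤ J) {ω ω' σ ρ : F.Ω}
    (h0 : z₀ (ptr F J ω) = z₀ (ptr F J σ)) (h0' : z₀ (ptr F J ω') = z₀ (ptr F J σ))
    (hs : slam F w σ = slam F w ω) (hs' : slam F w σ = slam F w ω')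
    (hr : slam F w ρ = slam F w σ) (H : Gd F c P z₀ z₁ lf g w h L (ω, σ))
    (H' : Gd F c P z₀ z₁ lf g w h L (σ, ω)) (G : Gd F c P z₀ z₁ lf g w h L (ω', σ))
    (G' : Gd F c P z₀ z₁ lf g w h L (σ, ω')) :
    |lne F c (P (z₀ (ptr F J ω))) g w (dlf F z₀ z₁ lf ω ω') ρ| ≤ 36 * 8 ^ h / 2 ^ L := by
  have h1 := two_pt hQ hw h0 hs (hr.trans hs) H H'
  have h2 := two_pt hQ hw h0' hs' (hr.trans hs') G G'
  have h3 : lne F c (P (z₀ (ptr F J ω))) g w (dlf F z₀ z₁ lf ω ω') ρ =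
      lne F c (P (z₀ (ptr F J ω))) g w (dlf F z₀ z₁ lf ω σ) ρ -
        lne F c (P (z₀ (ptr F J ω'))) g w (dlf F z₀ z₁ lf ω' σ) ρ := by
    unfold lne lev dlf
    rw [h0, h0']
    ring
  rw [h3]
  refine (abs_sub _ _).trans ?_
  have : (36 : ℝ) * 8 ^ h / 2 ^ L = 18 * 8 ^ h / 2 ^ L + 18 * 8 ^ h / 2 ^ L := by ring
  rw [this]
  exact add_le_add h1 h2

/-! ### The velocity of the first coordinate -/

/-- The slope of the first coordinate of the chart. -/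
noncomputable def p11 (Q : ℕ → PN) : ℝ := eval (fun _ => (1 : ℝ)) (Q 1) - eval (fun _ => (0 : ℝ)) (Q 1)

theorem vel_zero {Q : ℕ → PN} (hQ : ∀ i, (Q i).totalDegree ≤ 1) (ht : TriN Q) (g : ℕ → ℕ)
    (w : ℕ) (ω : F.Ω) (c : ℕ → Fin m) :
    vel F c Q g w ω 0 = (2 : ℝ) ^ g 0 / 2 ^ w * (F.d ω (c 0) - p11 Q) := by
  have hc : ∀ x : ℕ → ℝ, eval x (Q 1) = eval (fun _ => x 0) (Q 1) := by
    intro x
    refine eval₂Hom_congr' rfl (fun j hj _ => ?_) rfl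
    have := mem_range.1 (ht 1 hj)
    have hj0 : j = 0 := by omega
    rw [hj0]
  have hs : ∀ s : ℝ, eval (fun _ => s) (Q 1) = eval (fun _ => (0 : ℝ)) (Q 1) + s * p11 Q := by
    intro s
    have := eval_line (hQ 1) (fun _ => (0 : ℝ)) (fun _ => (1 : ℝ)) s
    simp only [zero_add, mul_one] at this
    rw [this]
    unfold p11
    rfl
  have e0 : xea F c ω 0 = F.t ω := rfl
  have e1 : vea F c ω 0 = 1 := rfl
  unfold vel
  rw [show (0 + 1 : ℕ) = 1 from rfl, hc (fun j => xea F c ω j + vea F c ω j), hc (xea F c ω), hs,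
    hs (xea F c ω 0)]
  simp only [e0, e1]
  ring

/-- The velocity of the first coordinate, from two leaves. -/
noncomputable def vdr (P : V₀ → ℕ → PN) (lf : V₁ → V₀ → Fin 4 → ℝ) (g : ℕ → ℕ) (w : ℕ)
    (K K' : V₁) (ζ : V₀) : ℝ :=
  p11 (P ζ) - (2 : ℝ) ^ w / 2 ^ g 0 * ((lf K ζ 1 - lf K' ζ 1) / (lf K ζ 2 - lf K' ζ 2))

/-- The natural velocities are bounded. -/
theorem vel_le (hQ : ∀ v i, (P v i).totalDegree ≤ 1) {ω σ : F.Ω}
    (h0 : z₀ (ptr F J ω) = z₀ (ptr F J σ)) (hs : slam F w σ = slam F w ω)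
    (H : Gd F c P z₀ z₁ lf g w h L (ω, σ)) (H' : Gd F c P z₀ z₁ lf g w h L (σ, ω))
    (hhL : h ≤ L) {i : ℕ} (hi : i < 2) (hp : |nx F c P z₀ g ω i| ≤ 1)
    (hp' : |nx F c P z₀ g σ i| ≤ 1) : |vel F c (P (z₀ (ptr F J ω))) g w ω i| ≤ 4 * 2 ^ h := by
  have h1 := nea_line (c := c) (g := g) (hQ (z₀ (ptr F J ω))) hs i
  have hr : (2 : ℝ) ^ h / 2 ^ L ≤ 1 := by
    rw [div_le_one (by positivity)]
    exact pow_le_pow_right₀ (by norm_num) hhL
  have h2 : |nea F c (P (z₀ (ptr F J ω))) g ω i| ≤ 2 := by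
    have a1 := H.rnd i hi
    simp only at a1
    have a2 : nea F c (P (z₀ (ptr F J ω))) g ω i = (nea F c (P (z₀ (ptr F J ω))) g ω i -
      nx F c P z₀ g ω i) + nx F c P z₀ g ω i := by ring
    rw [a2]
    exact (abs_add_le _ _).trans (by linarith)
  have h3 : |nea F c (P (z₀ (ptr F J ω))) g σ i| ≤ 2 := by
    have a1 := H'.rnd i hi
    simp only at a1
    rw [← h0] at a1
    have a2 : nea F c (P (z₀ (ptr F J ω))) g σ i = (nea F c (P (z₀ (ptr F J ω))) g σ i -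
      nx F c P z₀ g σ i) + nx F c P z₀ g σ i := by ring
    rw [a2]
    exact (abs_add_le _ _).trans (by linarith)
  have h4 : |nt F w σ - nt F w ω| * |vel F c (P (z₀ (ptr F J ω))) g w ω i| ≤ 4 := by
    rw [← abs_mul]
    have : (nt F w σ - nt F w ω) * vel F c (P (z₀ (ptr F J ω))) g w ω i =
        nea F c (P (z₀ (ptr F J ω))) g σ i - nea F c (P (z₀ (ptr F J ω))) g ω i := by
      rw [h1]
      ring
    rw [this]
    exact (abs_sub _ _).trans (by linarith)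
  have h5 := H.tsp
  simp only at h5
  rw [abs_sub_comm] at h5
  have hp2 : (0 : ℝ) < 2 ^ h := by positivity
  rw [div_le_iff₀ hp2] at h5
  calc |vel F c (P (z₀ (ptr F J ω))) g w ω i| =
        1 * |vel F c (P (z₀ (ptr F J ω))) g w ω i| := (one_mul _).symm
    _ ≤ (|nt F w σ - nt F w ω| * 2 ^ h) * |vel F c (P (z₀ (ptr F J ω))) g w ω i| :=
        mul_le_mul_of_nonneg_right h5 (abs_nonneg _)
    _ = (|nt F w σ - nt F w ω| * |vel F c (P (z₀ (ptr F J ω))) g w ω i|) * 2 ^ h := by ring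
    _ ≤ 4 * 2 ^ h := mul_le_mul_of_nonneg_right h4 hp2.le

/-- The slope of the difference of two leaves along the line. -/
theorem lsl_le (hQ : ∀ v i, (P v i).totalDegree ≤ 1) {ω σ : F.Ω} {f : Fin 4 → ℝ} {ε : ℝ}
    (hs : slam F w σ = slam F w ω) (H : Gd F c P z₀ z₁ lf g w h L (ω, σ))
    (h1 : |lne F c (P (z₀ (ptr F J ω))) g w f ω| ≤ ε)
    (h2 : |lne F c (P (z₀ (ptr F J ω))) g w f σ| ≤ ε) :
    |lsl F c (P (z₀ (ptr F J ω))) g w f ω| ≤ 2 * ε * 2 ^ h := by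
  have hQ' := hQ (z₀ (ptr F J ω))
  have e1 := lev_line (c := c) (g := g) hQ' f (rfl : slam F w ω = slam F w ω)
  have e2 := lev_line (c := c) (g := g) hQ' f hs
  rw [e2] at h2
  rw [e1] at h1
  have hp : (0 : ℝ) < 2 ^ h := by positivity
  have h4 : 1 ≤ (2 : ℝ) ^ h * |nt F w ω - nt F w σ| := by
    have := H.tsp
    simp only at this
    rw [div_le_iff₀ hp] at this
    linarith
  exact sl_le h1 h2 h4 hp.le

/-- **The velocity of the first coordinate is near a function of the two leaves.** `ε`: the size of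
the difference of the leaves on the line. -/
theorem dir_of (hQ : ∀ v i, (P v i).totalDegree ≤ 1) (ht : ∀ v, TriN (P v)) {ω σ : F.Ω}
    (h0 : z₀ (ptr F J ω) = z₀ (ptr F J σ)) (hs : slam F w σ = slam F w ω)
    (H : Gd F c P z₀ z₁ lf g w h L (ω, σ)) (H' : Gd F c P z₀ z₁ lf g w h L (σ, ω))
    (hhL : h ≤ L) (hp : |nx F c P z₀ g ω 1| ≤ 1) (hp' : |nx F c P z₀ g σ 1| ≤ 1)
    (hg : w ≤ g 0 + h) {K : V₁} {ε δ : ℝ} {h' : ℕ}
    (h1 : |lne F c (P (z₀ (ptr F J ω))) g w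
      (fun i => lf (z₁ (ptr F J ω)) (z₀ (ptr F J ω)) i - lf K (z₀ (ptr F J ω)) i) ω| ≤ ε)
    (h2 : |lne F c (P (z₀ (ptr F J ω))) g w
      (fun i => lf (z₁ (ptr F J ω)) (z₀ (ptr F J ω)) i - lf K (z₀ (ptr F J ω)) i) σ| ≤ ε)
    (h3 : |lf (z₁ (ptr F J ω)) (z₀ (ptr F J ω)) 3 - lf K (z₀ (ptr F J ω)) 3| ≤ δ)
    (h4 : 1 / 2 ^ h' ≤ |lf (z₁ (ptr F J ω)) (z₀ (ptr F J ω)) 2 - lf K (z₀ (ptr F J ω)) 2|) :
    |F.d ω (c 0) - vdr P lf g w (z₁ (ptr F J ω)) K (z₀ (ptr F J ω))| ≤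
      2 ^ (h' + h) * (2 * ε * 2 ^ h + 4 * 2 ^ h * δ) := by
  obtain ⟨f, hf⟩ : ∃ f : Fin 4 → ℝ, f = fun i => lf (z₁ (ptr F J ω)) (z₀ (ptr F J ω)) i -
    lf K (z₀ (ptr F J ω)) i := ⟨_, rfl⟩
  rw [← hf] at h1 h2
  have e3 : lf (z₁ (ptr F J ω)) (z₀ (ptr F J ω)) 3 - lf K (z₀ (ptr F J ω)) 3 = f 3 := by rw [hf]
  have e2 : lf (z₁ (ptr F J ω)) (z₀ (ptr F J ω)) 2 - lf K (z₀ (ptr F J ω)) 2 = f 2 := by rw [hf]
  have e1 : lf (z₁ (ptr F J ω)) (z₀ (ptr F J ω)) 1 - lf K (z₀ (ptr F J ω)) 1 = f 1 := by rw [hf]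
  rw [e3] at h3
  rw [e2] at h4
  have hb := lsl_le hQ hs H h1 h2
  have hV := vel_le hQ h0 hs H H' hhL (by norm_num : 1 < 2) hp hp'
  have hv0 := vel_zero (hQ (z₀ (ptr F J ω))) (ht (z₀ (ptr F J ω))) g w ω c
  obtain ⟨V0, hV0⟩ : ∃ V0, V0 = vel F c (P (z₀ (ptr F J ω))) g w ω 0 := ⟨_, rfl⟩
  obtain ⟨V1, hV1⟩ : ∃ V1, V1 = vel F c (P (z₀ (ptr F J ω))) g w ω 1 := ⟨_, rfl⟩
  rw [← hV1] at hV
  have hb' : |f 1 + f 2 * V0 + f 3 * V1| ≤ 2 * ε * 2 ^ h := by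
    rw [hV0, hV1]
    exact hb
  have hδ : 0 ≤ δ := (abs_nonneg _).trans h3
  have h5 : |f 3 * V1| ≤ 4 * 2 ^ h * δ := by
    rw [abs_mul, mul_comm]
    exact mul_le_mul hV h3 (abs_nonneg _) (by positivity)
  have h6 : |f 1 + f 2 * V0| ≤ 2 * ε * 2 ^ h + 4 * 2 ^ h * δ := by
    have : f 1 + f 2 * V0 = (f 1 + f 2 * V0 + f 3 * V1) - f 3 * V1 := by ring
    rw [this]
    exact (abs_sub _ _).trans (by linarith)
  have hf2 : f 2 ≠ 0 := by
    intro h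
    rw [h, abs_zero] at h4
    have : (0 : ℝ) < 1 / 2 ^ h' := by positivity
    linarith
  have h7 : |V0 + f 1 / f 2| ≤ 2 ^ h' * (2 * ε * 2 ^ h + 4 * 2 ^ h * δ) := by
    have a1 : f 1 + f 2 * V0 = f 2 * (V0 + f 1 / f 2) := by
      field_simp
      ring
    rw [a1, abs_mul] at h6
    have a2 : 1 / 2 ^ h' * |V0 + f 1 / f 2| ≤ 2 * ε * 2 ^ h + 4 * 2 ^ h * δ :=
      (mul_le_mul_of_nonneg_right h4 (abs_nonneg _)).trans h6
    rw [one_div_mul_eq_div, div_le_iff₀ (by positivity)] at a2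
    linarith
  have hw2 : (0 : ℝ) < 2 ^ w := by positivity
  have hg2 : (0 : ℝ) < 2 ^ g 0 := by positivity
  have h8 : F.d ω (c 0) - vdr P lf g w (z₁ (ptr F J ω)) K (z₀ (ptr F J ω)) =
      2 ^ w / 2 ^ g 0 * (V0 + f 1 / f 2) := by
    unfold vdr
    rw [e1, e2, hV0, hv0]
    field_simp
    ring
  rw [h8, abs_mul, abs_of_pos (by positivity : (0 : ℝ) < 2 ^ w / 2 ^ g 0)]
  have h9 : (2 : ℝ) ^ w / 2 ^ g 0 ≤ 2 ^ h := by
    rw [div_le_iff₀ hg2, ← pow_add]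
    exact pow_le_pow_right₀ (by norm_num) (by omega)
  calc (2 : ℝ) ^ w / 2 ^ g 0 * |V0 + f 1 / f 2| ≤
        2 ^ h * (2 ^ h' * (2 * ε * 2 ^ h + 4 * 2 ^ h * δ)) :=
        mul_le_mul h9 h7 (abs_nonneg _) (by positivity)
    _ = _ := by
        rw [pow_add]
        ring

/-- **All the coefficients agree.** -/
theorem co_of (hQ : ∀ v i, (P v i).totalDegree ≤ 1) {ω σ : F.Ω} (hw : w ≤ J)
    (h0 : z₀ (ptr F J ω) = z₀ (ptr F J σ)) (hs : slam F w σ = slam F w ω)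
    (H : Gd F c P z₀ z₁ lf g w h L (ω, σ)) (H' : Gd F c P z₀ z₁ lf g w h L (σ, ω))
    (hhL : h ≤ L) (hp : ∀ i < 2, |nx F c P z₀ g ω i| ≤ 1)
    (hp' : ∀ i < 2, |nx F c P z₀ g σ i| ≤ 1) {f : Fin 4 → ℝ} {ε δ δ' : ℝ}
    (h1 : |lne F c (P (z₀ (ptr F J ω))) g w f ω| ≤ ε)
    (h2 : |lne F c (P (z₀ (ptr F J ω))) g w f σ| ≤ ε) (h3 : |f 3| ≤ δ) (h4 : |f 2| ≤ δ')
    (i : Fin 4) : |f i| ≤ ε + 2 * ε * 2 ^ h + 4 * 2 ^ h * δ + 4 * 2 ^ h * δ' +
      2 * δ + 2 * δ' := by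
  have hb := lsl_le hQ hs H h1 h2
  have hV1 := vel_le hQ h0 hs H H' hhL (by norm_num : 1 < 2) (hp 1 (by norm_num))
    (hp' 1 (by norm_num))
  have hV0 := vel_le hQ h0 hs H H' hhL (by norm_num : 0 < 2) (hp 0 (by norm_num))
    (hp' 0 (by norm_num))
  have hδ : 0 ≤ δ := (abs_nonneg _).trans h3
  have hδ' : 0 ≤ δ' := (abs_nonneg _).trans h4
  have hε : 0 ≤ ε := (abs_nonneg _).trans h1
  have hH1 : (1 : ℝ) ≤ 2 ^ h := one_le_pow₀ (by norm_num)
  have a1 : |f 3 * vel F c (P (z₀ (ptr F J ω))) g w ω 1| ≤ 4 * 2 ^ h * δ := by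
    rw [abs_mul, mul_comm]
    exact mul_le_mul hV1 h3 (abs_nonneg _) (by positivity)
  have a2 : |f 2 * vel F c (P (z₀ (ptr F J ω))) g w ω 0| ≤ 4 * 2 ^ h * δ' := by
    rw [abs_mul, mul_comm]
    exact mul_le_mul hV0 h4 (abs_nonneg _) (by positivity)
  have f1 : |f 1| ≤ 2 * ε * 2 ^ h + 4 * 2 ^ h * δ + 4 * 2 ^ h * δ' := by
    have e1 : f 1 = lsl F c (P (z₀ (ptr F J ω))) g w f ω -
        f 2 * vel F c (P (z₀ (ptr F J ω))) g w ω 0 -
        f 3 * vel F c (P (z₀ (ptr F J ω))) g w ω 1 := by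
      unfold lsl
      ring
    rw [e1]
    refine (abs_sub _ _).trans ?_
    have := abs_sub (lsl F c (P (z₀ (ptr F J ω))) g w f ω)
      (f 2 * vel F c (P (z₀ (ptr F J ω))) g w ω 0)
    linarith
  have hne : ∀ i < 2, |nea F c (P (z₀ (ptr F J ω))) g ω i| ≤ 2 := by
    intro i hi
    have hr : (2 : ℝ) ^ h / 2 ^ L ≤ 1 := by
      rw [div_le_one (by positivity)]
      exact pow_le_pow_right₀ (by norm_num) hhL
    have b1 := H.rnd i hi
    simp only at b1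
    have b2 : nea F c (P (z₀ (ptr F J ω))) g ω i = (nea F c (P (z₀ (ptr F J ω))) g ω i -
      nx F c P z₀ g ω i) + nx F c P z₀ g ω i := by ring
    rw [b2]
    exact (abs_add_le _ _).trans (by linarith [hp i hi])
  have f0 : |f 0| ≤ ε + (2 * ε * 2 ^ h + 4 * 2 ^ h * δ + 4 * 2 ^ h * δ') + 2 * δ' + 2 * δ := by
    obtain ⟨b1, b2⟩ := nt_bd F hw ω
    have e1 : f 0 = lne F c (P (z₀ (ptr F J ω))) g w f ω - f 1 * nt F w ω -
        f 2 * nea F c (P (z₀ (ptr F J ω))) g ω 0 - f 3 * nea F c (P (z₀ (ptr F J ω))) g ω 1 := by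
      unfold lne lev
      ring
    have b3 : |f 1 * nt F w ω| ≤ |f 1| := by
      rw [abs_mul, abs_of_nonneg b1]
      exact mul_le_of_le_one_right (abs_nonneg _) b2
    have b4 : |f 2 * nea F c (P (z₀ (ptr F J ω))) g ω 0| ≤ 2 * δ' := by
      rw [abs_mul, mul_comm]
      exact mul_le_mul (hne 0 (by norm_num)) h4 (abs_nonneg _) (by norm_num)
    have b5 : |f 3 * nea F c (P (z₀ (ptr F J ω))) g ω 1| ≤ 2 * δ := by
      rw [abs_mul, mul_comm]
      exact mul_le_mul (hne 1 (by norm_num)) h3 (abs_nonneg _) (by norm_num)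
    rw [e1]
    have c1 := abs_sub (lne F c (P (z₀ (ptr F J ω))) g w f ω) (f 1 * nt F w ω)
    have c2 := abs_sub (lne F c (P (z₀ (ptr F J ω))) g w f ω - f 1 * nt F w ω)
      (f 2 * nea F c (P (z₀ (ptr F J ω))) g ω 0)
    refine (abs_sub _ _).trans ?_
    linarith
  have g1 : 0 ≤ 2 * ε * 2 ^ h := by positivity
  have g2 : δ ≤ 4 * 2 ^ h * δ := by nlinarith
  have g3 : δ' ≤ 4 * 2 ^ h * δ' := by nlinarith
  fin_cases i
  · simp only [Fin.zero_eta]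
    linarith
  · simp only [Fin.mk_one]
    linarith
  · simp only [Fin.reduceFinMk]
    linarith
  · simp only [Fin.reduceFinMk]
    linarith

end Pool.PMF
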