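import Pool.Agent.H88.PM.Acp
import Pool.Agent.H88.PM.Alg
import Pool.Agent.H26.PM.Afp
import Pool.Agent.H1.PLN.Stm

/-!
# The slopes of the leaves of two samples are separated

`fal_ev`: three coordinates `c 0` (active), `c 1`, `c 2`; affine leaves of `c 2`, closed at the window
`w₁`, over an affine chart, closed at the window `w₀`. The pairs of samples of one line such that
each point is on both leaves and the slopes of the two leaves in the direction `c 1` are near, have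
small mass. If not, on a sub-event all the samples of a line have near slopes in the direction
`c 1`; either the slopes in the direction `c 0` are different for half of the pairs, then the velocity
of `c 0` is near a function of the point and of the other leaf, or the leaf is near a function of
the line and of the window `w₀`.
-/

set_option autoImplicit false

namespace Pool.PMF

open Finset Real MvPolynomial
open Pool.Agent.H49.Ent Pool.Agent.H32.Dense Pool.STK Pool.KA Pool.KSAT Pool.K2S Pool.PB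
  Pool.STAT Pool.GEN Pool.M3F Pool.KM7 Pool.S6C Pool.JPN
open Pool.PM (nx nt lev lfv)
open Pool.PM26 (Afl nlv afp_evJ)
open Pool.PLN (pA p2 H2S)

variable {m J : ℕ}

/-! ### Numbers -/

theorem two_div_le {a r L : ℕ} (h : a + r ≤ L) : (2 : ℝ) ^ a / 2 ^ L ≤ 1 / 2 ^ r := by
  rw [div_le_div_iff₀ (by positivity) (by positivity), ← pow_add, one_mul]
  exact pow_le_pow_right₀ (by norm_num) h

theorem eight_pow (h : ℕ) : (8 : ℝ) ^ h = 2 ^ (3 * h) := by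
  rw [pow_mul]
  norm_num

theorem num_dir {r t h L κ : ℕ} (hL : r + t + 6 * h + 12 ≤ L) (hκ : r + t + 3 * h + 8 ≤ κ) :
    (2 : ℝ) ^ (t + h + 4 + h) * (2 * (36 * 8 ^ h / 2 ^ L) * 2 ^ h + 4 * 2 ^ h * (2 / 2 ^ κ)) ≤
      1 / 2 ^ r := by
  have h1 : (2 : ℝ) ^ (t + 6 * h + 11) / 2 ^ L ≤ 1 / 2 ^ (r + 1) := two_div_le (by omega)
  have h2 : (2 : ℝ) ^ (t + 3 * h + 7) / 2 ^ κ ≤ 1 / 2 ^ (r + 1) := two_div_le (by omega)
  have h3 : (2 : ℝ) ^ (t + h + 4 + h) * (2 * (36 * 8 ^ h / 2 ^ L) * 2 ^ h + 4 * 2 ^ h * (2 / 2 ^ κ)) =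
      72 / 128 * ((2 : ℝ) ^ (t + 6 * h + 11) / 2 ^ L) + (2 : ℝ) ^ (t + 3 * h + 7) / 2 ^ κ := by
    rw [eight_pow]
    rw [show t + h + 4 + h = t + 2 * h + 4 by ring, show t + 6 * h + 11 = t + 2 * h + 4 + (3 * h) +
      h + 7 by ring, show t + 3 * h + 7 = t + 2 * h + 4 + h + 3 by ring]
    simp only [pow_add]
    ring
  have h4 : (0 : ℝ) ≤ (2 : ℝ) ^ (t + 6 * h + 11) / 2 ^ L := by positivity
  have h5 : (1 : ℝ) / 2 ^ r = 1 / 2 ^ (r + 1) + 1 / 2 ^ (r + 1) := by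
    rw [pow_succ]
    field_simp
    norm_num
  rw [h3, h5]
  linarith

theorem num_co {t h L κ : ℕ} (hL : t + 6 * h + 12 ≤ L) (hκ : t + 3 * h + 8 ≤ κ) :
    (36 * 8 ^ h / 2 ^ L : ℝ) + 2 * (36 * 8 ^ h / 2 ^ L) * 2 ^ h + 4 * 2 ^ h * (2 / 2 ^ κ) +
      4 * 2 ^ h * (1 / 2 ^ (t + h + 4)) + 2 * (2 / 2 ^ κ) + 2 * (1 / 2 ^ (t + h + 4)) ≤
      1 / 2 ^ t := by
  have hx : (1 : ℝ) ≤ 2 ^ h := one_le_pow₀ (by norm_num)
  have h1 : (2 : ℝ) ^ (4 * h + 9) / 2 ^ L ≤ 1 / 2 ^ t := two_div_le (by omega)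
  have h2 : (2 : ℝ) ^ (h + 7) / 2 ^ κ ≤ 1 / 2 ^ t := two_div_le (by omega)
  have e1 : (2 : ℝ) ^ (4 * h + 9) = 512 * (2 ^ (3 * h) * 2 ^ h) := by
    rw [show 4 * h + 9 = 3 * h + h + 9 by ring]
    simp only [pow_add]
    norm_num
    ring
  have e2 : (2 : ℝ) ^ (h + 7) = 128 * 2 ^ h := by
    rw [pow_add]
    norm_num
    ring
  have e3 : (1 : ℝ) / 2 ^ (t + h + 4) = 1 / 16 * (1 / 2 ^ t / 2 ^ h) := by
    rw [pow_add, pow_add]
    norm_num
    field_simp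
  rw [e1] at h1
  rw [e2] at h2
  rw [e3, eight_pow]
  obtain ⟨x, hx'⟩ : ∃ x, x = (2 : ℝ) ^ h := ⟨_, rfl⟩
  obtain ⟨a, ha⟩ : ∃ a, a = (2 : ℝ) ^ (3 * h) / 2 ^ L := ⟨_, rfl⟩
  obtain ⟨b, hb⟩ : ∃ b, b = (1 : ℝ) / 2 ^ κ := ⟨_, rfl⟩
  obtain ⟨y, hy⟩ : ∃ y, y = (1 : ℝ) / 2 ^ t := ⟨_, rfl⟩
  rw [← hx'] at hx
  have hx0 : 0 < x := by linarith
  have ha0 : 0 ≤ a := by rw [ha]; positivity
  have hb0 : 0 ≤ b := by rw [hb]; positivity
  have hy0 : 0 ≤ y := by rw [hy]; positivity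
  have g1 : 512 * (a * x) ≤ y := by
    rw [ha, hx', hy]
    calc 512 * ((2 : ℝ) ^ (3 * h) / 2 ^ L * 2 ^ h) = 512 * (2 ^ (3 * h) * 2 ^ h) / 2 ^ L := by ring
      _ ≤ _ := h1
  have g2 : 128 * (x * b) ≤ y := by
    rw [hb, hx', hy]
    calc 128 * ((2 : ℝ) ^ h * (1 / 2 ^ κ)) = 128 * 2 ^ h / 2 ^ κ := by ring
      _ ≤ _ := h2
  have g3 : a ≤ a * x := le_mul_of_one_le_right ha0 hx
  have g4 : b ≤ x * b := le_mul_of_one_le_left hb0 hx
  have g5 : y / x * x = y := by field_simp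
  have g6 : y / x ≤ y := div_le_self hy0 hx
  have e4 : (36 * 2 ^ (3 * h) / 2 ^ L : ℝ) + 2 * (36 * 2 ^ (3 * h) / 2 ^ L) * 2 ^ h +
      4 * 2 ^ h * (2 / 2 ^ κ) + 4 * 2 ^ h * (1 / 16 * (1 / 2 ^ t / 2 ^ h)) + 2 * (2 / 2 ^ κ) +
      2 * (1 / 16 * (1 / 2 ^ t / 2 ^ h)) =
      36 * a + 72 * (a * x) + 8 * (x * b) + 1 / 4 * (y / x * x) + 4 * b + 1 / 8 * (y / x) := by
    rw [ha, hx', hb, hy]
    ring
  rw [e4, g5]
  linarith

/-! ### Coefficients -/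

/-- Four coefficients as a sequence. -/
noncomputable def ex4 (q : Fin 4 → ℝ) (j : ℕ) : ℝ := if h : j < 4 then q ⟨j, h⟩ else 0

theorem nlv_ex4 {F : Fam m J} {c : ℕ → Fin m} {V₀ : Type} {P : V₀ → ℕ → PN} {z₀ : PtT F → V₀}
    {g : ℕ → ℕ} {w : ℕ} (q : Fin 4 → ℝ) (ω : F.Ω) :
    nlv F c P z₀ g w 2 (ex4 q) ω = lfv F c P z₀ g w q ω := by
  unfold nlv lfv lev nx nt
  rw [Finset.sum_range_succ, Finset.sum_range_one]
  have e0 : ex4 q 0 = q 0 := by simp [ex4]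
  have e1 : ex4 q 1 = q 1 := by simp [ex4]
  have e2 : ex4 q (0 + 2) = q 2 := by simp [ex4]
  have e3 : ex4 q (1 + 2) = q 3 := by simp [ex4]
  rw [e0, e1, e2, e3]
  ring

theorem cond_mul_le {Ω : Type} [Fintype Ω] {p : Ω → ℝ} (hp : IsLaw p) {A : Ω → Prop}
    (hA : 0 < Pe p A) (ω : Ω) : Pool.Agent.H49.Ent.cond p A True ω * Pe p A ≤ 1 * p ω := by
  classical
  rw [Pool.JPR.cond_ev, one_mul]
  split_ifs with h1
  · rw [div_mul_cancel₀ _ hA.ne']
  · rw [zero_mul]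
    exact hp.nonneg ω

theorem one_le_two {E : Type} [Fintype E] {p : E → ℝ} (hp : IsLaw p) {A B : E → Prop}
    (h : ∀ e, 0 < p e → A e ∨ B e) : 1 ≤ Pe p A + Pe p B := by
  classical
  rw [← hp.sum_one, Pool.K2S.Pe_eq, Pool.K2S.Pe_eq, ← Finset.sum_add_distrib]
  refine Finset.sum_le_sum fun e _ => ?_
  have h0 := hp.nonneg e
  rcases h0.eq_or_lt with h1 | h1
  · rw [← h1]
    split_ifs <;> simp
  · rcases h e h1 with h2 | h2
    · rw [if_pos h2]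
      split_ifs
      · linarith
      · linarith
    · rw [if_pos h2]
      split_ifs
      · linarith
      · linarith

/-! ### The class -/

/-- **The slopes of the leaves of two samples are separated.** -/
theorem fal_ev {S : PCl m} {c : ℕ → Fin m} {w₀ w₁ e P1 h₀ : ℝ} {N : ℚ → ℚ → ℝ} {q : ℚ}
    (hw1 : w₀ ≤ 1) (hpos : Bas S (fun _ F A => 0 < Pe F.p A)) (hH2 : H2S S w₀ w₁ e) (he : 0 ≤ e)
    (hA : ActB N S (c 0)) (hq : 0 < q) (hq1 : q ≤ 1) (hN : 2 * e < N 0 q * Real.log 2)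
    (hP1 : 0 ≤ P1 + h₀)
    (hno : Bas S (fun J F A => ∀ P : ℕ, (P1 + h₀) * J ≤ P → P ≤ J →
      ¬ Afl F c 2 ⌊w₀ * J⌋₊ P A)) :
    ∀ η : ℝ, 0 < η → Bas S (fun J F A => ∀ (V₀ V₁ : Type) (P : V₀ → ℕ → PN)
      (z₀ : PtT F → V₀) (z₀' : LnT F → V₀) (z₁ : PtT F → V₁) (z₁' : LnT F → V₁)
      (lf : V₁ → V₀ → Fin 4 → ℝ) (g : ℕ → ℕ) (h L κ t : ℕ), (∀ v, TriN (P v)) →
      (∀ v i, (P v i).totalDegree ≤ 1) →
      (∀ ω, A ω → z₀ (ptr F J ω) = z₀' (slam F ⌊w₀ * J⌋₊ ω)) →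
      (∀ ω, A ω → z₁ (ptr F J ω) = z₁' (slam F ⌊w₁ * J⌋₊ ω)) →
      (∀ ω, A ω → ∀ i < 2, |ntc F c P z₀ ω i| ≤ 1 / 2 ^ g i) → ⌊w₀ * J⌋₊ ≤ g 0 + h →
      (P1 + h₀) * J + 9 ≤ g 2 + t → g 2 + t ≤ J → ⌊(q : ℝ) * J⌋₊ + t + 3 * h + 8 ≤ κ →
      ⌊(q : ℝ) * J⌋₊ + t + 6 * h + 12 ≤ L →
      Pe (p2 F A ⌊w₀ * J⌋₊) (fun v => Gd F c P z₀ z₁ lf g ⌊w₀ * J⌋₊ h L v ∧
        Gd F c P z₀ z₁ lf g ⌊w₀ * J⌋₊ h L v.swap ∧
        |dlf F z₀ z₁ lf v.1 v.2 3| < 1 / 2 ^ κ) ≤ η) := by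
  classical
  intro η hη
  obtain ⟨ρ, hρ, τa, hτa, Ja, hact⟩ := act_pair hA hq hq1 (c := 1 / 2) (by norm_num)
    (by norm_num) he (by linarith)
  obtain ⟨τb, hτb, Jb, hH⟩ := hH2 ρ hρ
  obtain ⟨δ, hδ, τc, hτc, Jc, hcl⟩ := afp_evJ hw1 hno
  obtain ⟨τd, hτd, Jd, hps⟩ := hpos
  obtain ⟨τ, hτ⟩ : ∃ τ, τ = min (min τa τb) (min τc τd) := ⟨_, rfl⟩
  have hτ0 : 0 < τ := by
    rw [hτ]
    exact lt_min (lt_min hτa hτb) (lt_min hτc hτd)
  have ta : τ ≤ τa := by rw [hτ]; exact (min_le_left _ _).trans (min_le_left _ _)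
  have tb : τ ≤ τb := by rw [hτ]; exact (min_le_left _ _).trans (min_le_right _ _)
  have tc : τ ≤ τc := by rw [hτ]; exact (min_le_right _ _).trans (min_le_left _ _)
  have td : τ ≤ τd := by rw [hτ]; exact (min_le_right _ _).trans (min_le_right _ _)
  obtain ⟨J₁, hJ₁⟩ := exists_nat_ge (-Real.log η / (τ / 2))
  obtain ⟨J₂, hJ₂⟩ := exists_nat_ge (Real.log 2 / δ + 1)
  refine ⟨τ / 2, by linarith, max (max Ja Jb) (max (max Jc Jd) (max J₁ J₂)), ?_⟩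
  intro J hJ F A hSA V₀ V₁ P z₀ z₀' z₁ z₁' lf g h L κ t htri hdeg hc0 hc1 hps' hg0 hgt hgJ hκ hL
  have ja : Ja ≤ J := (le_max_left _ _).trans ((le_max_left _ _).trans hJ)
  have jb : Jb ≤ J := (le_max_right _ _).trans ((le_max_left _ _).trans hJ)
  have jc : Jc ≤ J :=
    (le_max_left _ _).trans ((le_max_left _ _).trans ((le_max_right _ _).trans hJ))
  have jd : Jd ≤ J :=
    (le_max_right _ _).trans ((le_max_left _ _).trans ((le_max_right _ _).trans hJ))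
  have j1 : J₁ ≤ J :=
    (le_max_left _ _).trans ((le_max_right _ _).trans ((le_max_right _ _).trans hJ))
  have j2 : J₂ ≤ J :=
    (le_max_right _ _).trans ((le_max_right _ _).trans ((le_max_right _ _).trans hJ))
  have hJ0 : (0 : ℝ) ≤ J := Nat.cast_nonneg J
  have hPA : 0 < Pe F.p A := hps J jd F A (S.mono (by linarith) hSA)
  obtain ⟨W, hW⟩ : ∃ W, W = ⌊w₀ * J⌋₊ := ⟨_, rfl⟩
  have hWJ : W ≤ J := by
    rw [hW]
    have h1 : w₀ * (J : ℝ) ≤ J := by nlinarith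
    have h2 := Nat.floor_le_floor h1
    rwa [Nat.floor_natCast] at h2
  rw [← hW] at hc0 hg0 ⊢
  -- the relation
  obtain ⟨R, hR⟩ : ∃ R : F.Ω → F.Ω → Prop, R = fun ω σ => A σ ∧ slam F W σ = slam F W ω ∧
    Gd F c P z₀ z₁ lf g W h L (ω, σ) ∧ Gd F c P z₀ z₁ lf g W h L (σ, ω) ∧
    |dlf F z₀ z₁ lf ω σ 3| < 1 / 2 ^ κ := ⟨_, rfl⟩
  have hlA : IsLaw (pA F A) := Pool.K2S.isLaw_cond F.isLaw hPA
  have hmono : Pe (p2 F A W) (fun v => Gd F c P z₀ z₁ lf g W h L v ∧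
        Gd F c P z₀ z₁ lf g W h L v.swap ∧ |dlf F z₀ z₁ lf v.1 v.2 3| < 1 / 2 ^ κ) ≤
      Pe (p2 F A W) (fun v => R v.1 v.2) := by
    rw [Pool.K2S.Pe_eq, Pool.K2S.Pe_eq]
    refine Finset.sum_le_sum fun v _ => ?_
    have hv0 := (P2_isLaw hlA (slam F W)).nonneg v
    by_cases hv : 0 < p2 F A W v
    · have h1 := (P2_pos hlA v).1 hv
      split_ifs with h2 h3 h3
      · exact le_rfl
      · exfalso
        refine h3 ?_
        rw [hR]
        refine ⟨?_, h1.2.2.symm, h2.1, h2.2.1, h2.2.2⟩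
        exact of_eq_true ((cond_pos_iff F.isLaw.nonneg A True v.2).1 h1.2.1).2
      · exact hv0
      · exact le_rfl
    · have hv1 : p2 F A W v = 0 := le_antisymm (not_lt.1 hv) hv0
      rw [hv1]
      split_ifs <;> exact le_rfl
  refine hmono.trans ?_
  have hlt : ∀ ω, pA F A ω * Pe F.p A ≤ 1 * F.p ω := cond_mul_le F.isLaw hPA
  have hsA : ∀ ω, 0 < pA F A ω → A ω := fun ω hω =>
    of_eq_true ((cond_pos_iff F.isLaw.nonneg A True ω).1 hω).2
  have key : Pe (p2 F A W) (fun v => R v.1 v.2) ≤ 1 * η := by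
    refine Pool.PLN26.pair_of hlA zero_le_one hPA hsA hlt (slam F W) R fun sel => ?_
    by_contra hcon
    push Not at hcon
    -- the sub-event
    obtain ⟨B, hB⟩ : ∃ B : F.Ω → Prop, B = fun ω => A ω ∧ R ω (sel (slam F W ω)) := ⟨_, rfl⟩
    rw [← hB] at hcon
    have hBA : Sub B A := fun ω hω => by
      rw [hB] at hω
      exact hω.1
    have hη1 : Real.exp (-(τ / 2 * J)) ≤ η := by
      rw [← Real.le_log_iff_exp_le hη]
      have h1 : -Real.log η / (τ / 2) ≤ J := hJ₁.trans (by exact_mod_cast j1)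
      rw [div_le_iff₀ (by linarith)] at h1
      linarith
    have hSB : S.St (τ / 2 + τ / 2) J F B :=
      S.res (by linarith) hSA hBA ((mul_le_mul_of_nonneg_right hη1 hPA.le).trans hcon.le)
    rw [add_halves] at hSB
    have hPB : 0 < Pe F.p B := hps J jd F B (S.mono td hSB)
    have hlB : IsLaw (pA F B) := Pool.K2S.isLaw_cond F.isLaw hPB
    have hsB : ∀ ω, 0 < pA F B ω → B ω := fun ω hω =>
      of_eq_true ((cond_pos_iff F.isLaw.nonneg B True ω).1 hω).2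
    have hRB : ∀ ω, B ω → A ω ∧ R ω (sel (slam F W ω)) := fun ω hω => by
      rw [hB] at hω
      exact hω
    -- pointwise facts about two samples of the sub-event
    have hnx : ∀ ω, A ω → ∀ i < 2, |nx F c P z₀ g ω i| ≤ 1 := by
      intro ω hω i hi
      have h1 := hps' ω hω i hi
      have hp : (0 : ℝ) < 2 ^ g i := by positivity
      unfold Pool.PM.nx
      rw [abs_mul, abs_of_pos hp]
      calc (2 : ℝ) ^ g i * |ntc F c P z₀ ω i| ≤ 2 ^ g i * (1 / 2 ^ g i) :=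
            mul_le_mul_of_nonneg_left h1 hp.le
        _ = 1 := by field_simp
    have hz : ∀ ω σ, A ω → A σ → slam F W σ = slam F W ω →
        z₀ (ptr F J ω) = z₀ (ptr F J σ) := by
      intro ω σ h1 h2 h3
      rw [hc0 ω h1, hc0 σ h2, h3]
    have hhL : h ≤ L := by omega
    have fact : ∀ ω ω', B ω → B ω' → slam F W ω = slam F W ω' → ∃ σ, A σ ∧
        slam F W σ = slam F W ω ∧ Gd F c P z₀ z₁ lf g W h L (ω, σ) ∧
        Gd F c P z₀ z₁ lf g W h L (σ, ω) ∧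
        |lne F c (P (z₀ (ptr F J ω))) g W (dlf F z₀ z₁ lf ω ω') ω| ≤ 36 * 8 ^ h / 2 ^ L ∧
        |lne F c (P (z₀ (ptr F J ω))) g W (dlf F z₀ z₁ lf ω ω') σ| ≤ 36 * 8 ^ h / 2 ^ L ∧
        |dlf F z₀ z₁ lf ω ω' 3| ≤ 2 / 2 ^ κ := by
      intro ω ω' h1 h2 h3
      obtain ⟨a1, a2⟩ := hRB ω h1
      obtain ⟨b1, b2⟩ := hRB ω' h2
      rw [← h3] at b2
      obtain ⟨σ, hσ⟩ : ∃ σ, σ = sel (slam F W ω) := ⟨_, rfl⟩
      rw [← hσ] at a2 b2
      rw [hR] at a2 b2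
      obtain ⟨a3, a4, a5, a6, a7⟩ := a2
      obtain ⟨b3, b4, b5, b6, b7⟩ := b2
      have z1 := hz ω σ a1 a3 a4
      have z2 := hz ω' σ b1 b3 b4
      refine ⟨σ, a3, a4, a5, a6, ?_, ?_, ?_⟩
      · exact three_pt hdeg hWJ z1 z2 a4 b4 a4.symm a5 a6 b5 b6
      · exact three_pt hdeg hWJ z1 z2 a4 b4 rfl a5 a6 b5 b6
      · have c1 : dlf F z₀ z₁ lf ω ω' 3 = dlf F z₀ z₁ lf ω σ 3 - dlf F z₀ z₁ lf ω' σ 3 := by
          unfold dlf
          rw [z1, z2]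
          ring
        rw [c1]
        refine (abs_sub _ _).trans ?_
        have c2 : (2 : ℝ) / 2 ^ κ = 1 / 2 ^ κ + 1 / 2 ^ κ := by ring
        rw [c2]
        exact add_le_add a7.le b7.le
    -- the velocity
    have hd := hact J ja F B (S.mono ta hSB) (F.Ω × F.Ω) V₁ (p2 F B W) Prod.fst
      (fun v => z₁ (ptr F J v.2))
      (fun y K' => vdr P lf g W (z₁ y) K' (z₀ y)) (P2_isLaw hlB (slam F W)) (P2_fst hlB _) hPB
      (by
        have := hH J jb F B (S.mono tb hSB) V₁ z₁ z₁' fun ω hω => hc1 ω (hBA ω hω)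
        rw [← hW] at this
        exact this)
    -- the slopes in the first direction are near with small probability
    have hs : Pe (p2 F B W) (fun v => B v.2 ∧ slam F W v.1 = slam F W v.2 ∧
        |dlf F z₀ z₁ lf v.1 v.2 2| < 1 / 2 ^ (t + h + 4)) ≤ 1 * Real.exp (-(δ * J)) := by
      have hltB : ∀ ω, pA F B ω * Pe F.p B ≤ 1 * F.p ω := cond_mul_le F.isLaw hPB
      refine Pool.PLN26.pair_of hlB zero_le_one hPB hsB hltB (slam F W)
        (fun ω ω' => B ω' ∧ slam F W ω = slam F W ω' ∧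
          |dlf F z₀ z₁ lf ω ω' 2| < 1 / 2 ^ (t + h + 4)) fun sel' => ?_
      have hc := hcl J jc F B (S.mono tc hSB) V₀ P z₀ z₀' g t
        (fun y => ex4 (lf (z₁ y) (z₀ y)))
        (fun s => ex4 (lf (z₁ (ptr F J (sel' s))) (z₀ (ptr F J (sel' s)))))
        (fun ω => B ω ∧ B (sel' (slam F W ω)) ∧ slam F W ω = slam F W (sel' (slam F W ω)) ∧
          |dlf F z₀ z₁ lf ω (sel' (slam F W ω)) 2| < 1 / 2 ^ (t + h + 4)) htri
        (fun v j _ => hdeg v j) (fun ω hω => hω.1)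
        (fun ω hω => by
          rw [← hW]
          exact hc0 ω (hBA ω hω.1))
        (by
          have h1 : (0 : ℝ) ≤ (P1 + h₀) * J := mul_nonneg hP1 hJ0
          have h2 : ((2 * 2 + 5 : ℕ) : ℝ) ≤ ((g 2 + t : ℕ) : ℝ) := by
            push_cast
            linarith
          exact_mod_cast h2)
        (by
          push_cast
          linarith) hgJ
        (fun ω hω l hl => by
          have := hnx ω (hBA ω hω.1) l hl
          unfold Pool.PM.nx at this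
          linarith)
        (fun ω hω => by
          rw [← hW, nlv_ex4]
          obtain ⟨σ, _, _, k3, _⟩ := fact ω ω hω.1 hω.1 rfl
          refine k3.own.trans ?_
          exact one_div_le_one_div_of_le (by positivity)
            (pow_le_pow_right₀ (by norm_num) (by omega)))
        (fun ω hω j hj => by
          rw [← hW]
          obtain ⟨σ', hσ'⟩ : ∃ σ', σ' = sel' (slam F W ω) := ⟨_, rfl⟩
          rw [← hσ'] at hω ⊢
          obtain ⟨k1, k2, k3, k4⟩ := hω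
          obtain ⟨σ, l1, l2, l3, l4, l5, l6, l7⟩ := fact ω σ' k1 k2 k3
          have z1 := hz ω σ (hBA ω k1) l1 l2
          have z2 := hz ω σ' (hBA ω k1) (hBA σ' k2) k3.symm
          have h1 := co_of hdeg hWJ z1 l2 l3 l4 hhL (hnx ω (hBA ω k1)) (hnx σ l1) l5 l6 l7
            k4.le ⟨j, hj⟩
          have h2 := h1.trans (num_co (by omega) (by omega))
          have h3 : ex4 (lf (z₁ (ptr F J ω)) (z₀ (ptr F J ω))) j -
              ex4 (lf (z₁ (ptr F J σ')) (z₀ (ptr F J σ'))) j =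
              dlf F z₀ z₁ lf ω σ' ⟨j, hj⟩ := by
            unfold ex4 dlf
            rw [dif_pos hj, dif_pos hj, z2]
          rw [h3]
          exact h2)
      refine le_trans (Pool.K2S.Pe_mono F.isLaw fun ω hω => ?_) hc
      exact ⟨hω.1, hω.2.1, hω.2.2.1, hω.2.2.2⟩
    -- every pair is in one of the two cases
    have hall : (1 : ℝ) ≤ Pe (p2 F B W) (fun v => |F.d v.1 (c 0) -
        vdr P lf g W (z₁ (ptr F J v.1)) (z₁ (ptr F J v.2)) (z₀ (ptr F J v.1))| ≤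
          1 / 2 ^ ⌊(q : ℝ) * J⌋₊) +
        Pe (p2 F B W) (fun v => B v.2 ∧ slam F W v.1 = slam F W v.2 ∧
          |dlf F z₀ z₁ lf v.1 v.2 2| < 1 / 2 ^ (t + h + 4)) := by
      refine one_le_two (P2_isLaw hlB (slam F W)) fun v hv => ?_
      obtain ⟨a1, a2, a3⟩ := (P2_pos hlB v).1 hv
      have b1 := hsB _ a1
      have b2 := hsB _ a2
      by_cases h2 : |dlf F z₀ z₁ lf v.1 v.2 2| < 1 / 2 ^ (t + h + 4)
      · exact Or.inr ⟨b2, a3, h2⟩
      · left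
        obtain ⟨σ, l1, l2, l3, l4, l5, l6, l7⟩ := fact v.1 v.2 b1 b2 a3
        have z1 := hz v.1 σ (hBA _ b1) l1 l2
        have h3 := dir_of (K := z₁ (ptr F J v.2)) hdeg htri z1 l2 l3 l4 hhL
          (hnx _ (hBA _ b1) 1 (by norm_num)) (hnx σ l1 1 (by norm_num)) hg0 l5 l6 l7
          (not_lt.1 h2)
        exact h3.trans (num_dir (r := ⌊(q : ℝ) * J⌋₊) hL hκ)
    have he2 : Real.exp (-(δ * J)) < 1 / 2 := by
      have h1 : Real.log 2 / δ < J := by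
        have : ((J₂ : ℕ) : ℝ) ≤ J := by exact_mod_cast j2
        linarith
      rw [div_lt_iff₀ hδ] at h1
      have h2 : Real.exp (-(δ * J)) < Real.exp (-Real.log 2) := by
        rw [Real.exp_lt_exp]
        linarith
      have h3 : Real.exp (-Real.log 2) = 1 / 2 := by
        rw [Real.exp_neg, Real.exp_log (by norm_num), ← one_div]
      rwa [h3] at h2
    linarith
  rwa [one_mul] at key

end Pool.PMF
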