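import Pool.Agent.H88.PM.Rd

/-!
# The slopes of the sheets of `c 2` are separated: numbers

`fal_num`: `fal_ev` with real numbers: `β i` the numbers of the affine chart at the window `w₀`,
`b` the size of the shift, `b'` the separation, `fall - b` the precision of the sheets. Only the
sheets of `c 2` occur.
-/

set_option autoImplicit false

namespace Pool.PMF

open Finset Real MvPolynomial
open Pool.Agent.H49.Ent Pool.Agent.H32.Dense Pool.STK Pool.KA Pool.KSAT Pool.K2S Pool.PB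
  Pool.STAT Pool.GEN Pool.M3F Pool.KM7 Pool.S6C Pool.JPN Pool.PLN Pool.PM
open Pool.PM26 (Afl)

variable {m : ℕ}

/-- The floors of the numbers. -/
theorem fal_flo {β0 β1 β2 w₀ q h₀ fall b b' : ℝ} (hw0 : w₀ < β0 + b) (hq : 0 ≤ q) (hh : 0 ≤ h₀)
    (hb : 0 < b) (h1 : q + h₀ + 3 * b < b') (h2 : q + h₀ + 7 * b < fall) (h3 : β2 + h₀ < 1)
    (h4 : β0 + fall < 1 + b) (h5 : β1 + fall < 1 + b) : ∃ φ : ℝ, 0 < φ ∧ φ ≤ b / 2 ∧ ∃ J₀ : ℕ,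
    ∀ J : ℕ, J₀ ≤ J → ∀ g : ℕ → ℕ, |(g 0 : ℝ) - β0 * J| ≤ φ * J → |(g 1 : ℝ) - β1 * J| ≤ φ * J →
      |(g 2 : ℝ) - β2 * J| ≤ φ * J → ∃ t : ℕ, ⌊w₀ * J⌋₊ ≤ g 0 + ⌊b * J⌋₊ ∧
        (β2 + h₀) * J + 9 ≤ g 2 + t ∧ g 2 + t ≤ J ∧
        ⌊q * J⌋₊ + t + 3 * ⌊b * J⌋₊ + 8 ≤ ⌊b' * J⌋₊ ∧
        ⌊q * J⌋₊ + t + 6 * ⌊b * J⌋₊ + 12 ≤ ⌊(fall - b) * J⌋₊ ∧
        (∀ i < 2, g i + ⌊(fall - b) * J⌋₊ ≤ J) ∧ Real.exp (φ * J) + 1 ≤ 2 ^ ⌊b * J⌋₊ := by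
  obtain ⟨s, hs⟩ : ∃ s, s = min (min (min (β0 + b - w₀) (b' - (q + h₀ + 3 * b)))
    (min (fall - (q + h₀ + 7 * b)) (1 - (β2 + h₀)))) (min (min (1 + b - (β0 + fall))
    (1 + b - (β1 + fall))) b) := ⟨_, rfl⟩
  have a1 : s ≤ β0 + b - w₀ := by
    rw [hs]
    exact ((min_le_left _ _).trans (min_le_left _ _)).trans (min_le_left _ _)
  have a2 : s ≤ b' - (q + h₀ + 3 * b) := by
    rw [hs]
    exact ((min_le_left _ _).trans (min_le_left _ _)).trans (min_le_right _ _)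
  have a3 : s ≤ fall - (q + h₀ + 7 * b) := by
    rw [hs]
    exact ((min_le_left _ _).trans (min_le_right _ _)).trans (min_le_left _ _)
  have a4 : s ≤ 1 - (β2 + h₀) := by
    rw [hs]
    exact ((min_le_left _ _).trans (min_le_right _ _)).trans (min_le_right _ _)
  have a5 : s ≤ 1 + b - (β0 + fall) := by
    rw [hs]
    exact ((min_le_right _ _).trans (min_le_left _ _)).trans (min_le_left _ _)
  have a6 : s ≤ 1 + b - (β1 + fall) := by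
    rw [hs]
    exact ((min_le_right _ _).trans (min_le_left _ _)).trans (min_le_right _ _)
  have a7 : s ≤ b := by
    rw [hs]
    exact (min_le_right _ _).trans (min_le_right _ _)
  have hs0 : 0 < s := by
    rw [hs]
    refine lt_min (lt_min (lt_min ?_ ?_) (lt_min ?_ ?_)) (lt_min (lt_min ?_ ?_) hb) <;> linarith
  obtain ⟨J₀, hJ₀⟩ := exists_nat_ge (60 / s)
  refine ⟨s / 4, by linarith, by linarith, J₀, ?_⟩
  intro J hJ g g0 g1 g2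
  have hsJ : 60 ≤ s * J := by
    have h6 : 60 / s ≤ J := hJ₀.trans (by exact_mod_cast hJ)
    rw [div_le_iff₀ hs0] at h6
    linarith
  have hJ0 : (0 : ℝ) ≤ J := Nat.cast_nonneg J
  have hJp : (0 : ℝ) < J := by
    rcases hJ0.eq_or_lt with h6 | h6
    · rw [← h6, mul_zero] at hsJ
      linarith
    · exact h6
  rw [abs_le] at g0 g1 g2
  have e1 : s * J ≤ (β0 + b - w₀) * J := mul_le_mul_of_nonneg_right a1 hJ0
  have e2 : s * J ≤ (b' - (q + h₀ + 3 * b)) * J := mul_le_mul_of_nonneg_right a2 hJ0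
  have e3 : s * J ≤ (fall - (q + h₀ + 7 * b)) * J := mul_le_mul_of_nonneg_right a3 hJ0
  have e4 : s * J ≤ (1 - (β2 + h₀)) * J := mul_le_mul_of_nonneg_right a4 hJ0
  have e5 : s * J ≤ (1 + b - (β0 + fall)) * J := mul_le_mul_of_nonneg_right a5 hJ0
  have e6 : s * J ≤ (1 + b - (β1 + fall)) * J := mul_le_mul_of_nonneg_right a6 hJ0
  have e7 : s * J ≤ b * J := mul_le_mul_of_nonneg_right a7 hJ0
  have hqJ : 0 ≤ q * J := mul_nonneg hq hJ0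
  have hhJ : 0 ≤ h₀ * J := mul_nonneg hh hJ0
  obtain ⟨t, ht⟩ : ∃ t : ℕ, t = ⌈(β2 + h₀) * J + 9 - g 2⌉₊ := ⟨_, rfl⟩
  have t1 : (β2 + h₀) * J + 9 - g 2 ≤ t := by
    rw [ht]
    exact Nat.le_ceil _
  have t2 : (t : ℝ) ≤ (h₀ + s / 4) * J + 10 := by
    rw [ht]
    rcases le_or_gt ((β2 + h₀) * J + 9 - g 2) 0 with h6 | h6
    · rw [Nat.ceil_eq_zero.2 h6]
      push_cast
      nlinarith
    · have h7 := Nat.ceil_lt_add_one h6.le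
      nlinarith
  have b0 := Nat.floor_le (show 0 ≤ b * J by nlinarith)
  have b1 := Nat.lt_floor_add_one (b * J)
  have q0 := Nat.floor_le hqJ
  have c0 : 0 ≤ b' * J := by nlinarith
  have c1 := Nat.lt_floor_add_one (b' * J)
  have d0 : 0 ≤ (fall - b) * J := by nlinarith
  have d1 := Nat.floor_le d0
  have d2 := Nat.lt_floor_add_one ((fall - b) * J)
  refine ⟨t, ?_, by linarith, ?_, ?_, ?_, ?_, ?_⟩
  · rcases le_or_gt (w₀ * J) 0 with h6 | h6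
    · rw [Nat.floor_eq_zero.2 (by linarith)]
      exact Nat.zero_le _
    · have h7 := Nat.floor_le h6.le
      have h8 : ((⌊w₀ * J⌋₊ : ℕ) : ℝ) ≤ ((g 0 + ⌊b * J⌋₊ : ℕ) : ℝ) := by
        push_cast
        nlinarith
      exact_mod_cast h8
  · have h8 : ((g 2 + t : ℕ) : ℝ) ≤ ((J : ℕ) : ℝ) := by
      push_cast
      rcases le_or_gt ((β2 + h₀) * J + 9 - g 2) 0 with h6 | h6
      · have h7 : (t : ℝ) = 0 := by
          rw [ht, Nat.ceil_eq_zero.2 h6]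
          simp
        nlinarith
      · have h7 : (t : ℝ) < (β2 + h₀) * J + 9 - g 2 + 1 := by
          rw [ht]
          exact Nat.ceil_lt_add_one h6.le
        nlinarith
    exact_mod_cast h8
  · have h8 : ((⌊q * J⌋₊ + t + 3 * ⌊b * J⌋₊ + 8 : ℕ) : ℝ) < ((⌊b' * J⌋₊ + 1 : ℕ) : ℝ) := by
      push_cast
      nlinarith
    have := Nat.lt_succ_iff.1 (show _ < ⌊b' * J⌋₊ + 1 by exact_mod_cast h8)
    exact this
  · have h8 : ((⌊q * J⌋₊ + t + 6 * ⌊b * J⌋₊ + 12 : ℕ) : ℝ) <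
        ((⌊(fall - b) * J⌋₊ + 1 : ℕ) : ℝ) := by
      push_cast
      nlinarith
    have := Nat.lt_succ_iff.1 (show _ < ⌊(fall - b) * J⌋₊ + 1 by exact_mod_cast h8)
    exact this
  · intro i hi
    have hi' : i = 0 ∨ i = 1 := by omega
    rcases hi' with rfl | rfl
    · have h8 : ((g 0 + ⌊(fall - b) * J⌋₊ : ℕ) : ℝ) ≤ ((J : ℕ) : ℝ) := by
        push_cast
        nlinarith
      exact_mod_cast h8
    · have h8 : ((g 1 + ⌊(fall - b) * J⌋₊ : ℕ) : ℝ) ≤ ((J : ℕ) : ℝ) := by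
        push_cast
        nlinarith
      exact_mod_cast h8
  · have h6 : Real.exp (s / 4 * J) ≤ 2 ^ (⌊b * J⌋₊ - 1) := by
      rw [← Real.rpow_natCast, Real.rpow_def_of_pos (by norm_num : (0 : ℝ) < 2),
        Real.exp_le_exp]
      have h7 : (1 : ℕ) ≤ ⌊b * J⌋₊ := by
        have : (1 : ℝ) < ((⌊b * J⌋₊ + 1 : ℕ) : ℝ) := by
          push_cast
          linarith
        have h9 : 1 < ⌊b * J⌋₊ + 1 := by exact_mod_cast this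
        omega
      rw [Nat.cast_sub h7]
      push_cast
      have h8 : (0.69 : ℝ) < Real.log 2 := by
        have := Real.log_two_gt_d9
        linarith
      have h9 : s * J - 2 ≤ (⌊b * J⌋₊ : ℝ) - 1 := by linarith
      calc s / 4 * J ≤ 0.69 * (s * J - 2) := by nlinarith
        _ ≤ Real.log 2 * (s * J - 2) := mul_le_mul_of_nonneg_right h8.le (by linarith)
        _ ≤ Real.log 2 * ((⌊b * J⌋₊ : ℝ) - 1) := mul_le_mul_of_nonneg_left h9 (by linarith)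
    have h7 : (1 : ℕ) ≤ ⌊b * J⌋₊ := by
      have : (1 : ℝ) < ((⌊b * J⌋₊ + 1 : ℕ) : ℝ) := by
        push_cast
        linarith
      have h9 : 1 < ⌊b * J⌋₊ + 1 := by exact_mod_cast this
      omega
    have h8 : (2 : ℝ) ^ ⌊b * J⌋₊ = 2 ^ (⌊b * J⌋₊ - 1) * 2 := by
      rw [← pow_succ]
      congr 1
      omega
    have h9 : (1 : ℝ) ≤ 2 ^ (⌊b * J⌋₊ - 1) := one_le_pow₀ (by norm_num)
    rw [h8]
    linarith

/-- **The slopes of the sheets of `c 2` are separated**: the first point on its own sheet and on the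
sheet of the second sample, both ways; only the numbers. -/
theorem fal_num {S : PCl m} {c : ℕ → Fin m} {w₀ w₁ e : ℝ} {N : ℚ → ℚ → ℝ} {q : ℚ}
    {β : ℕ → ℝ} {h₀ fall b b' : ℝ}
    (hw1 : w₀ ≤ 1) (hpos : Bas S (fun _ F A => 0 < Pe F.p A)) (hH2 : H2S S w₀ w₁ e) (he : 0 ≤ e)
    (hA : ActB N S (c 0)) (hq : 0 < q) (hq1 : q ≤ 1) (hN : 2 * e < N 0 q * Real.log 2)
    (hβ : 0 ≤ β 2) (hh : 0 ≤ h₀) (hw0 : w₀ < β 0 + b) (hb : 0 < b) (h1 : q + h₀ + 3 * b < b')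
    (h2 : q + h₀ + 7 * b < fall) (h3 : β 2 + h₀ < 1) (h4 : ∀ i < 2, β i + fall < 1 + b)
    (hno : Bas S (fun J F A => ∀ P : ℕ, (β 2 + h₀) * J ≤ P → P ≤ J →
      ¬ Afl F c 2 ⌊w₀ * J⌋₊ P A)) :
    ∃ φ : ℝ, 0 < φ ∧ ∀ η : ℝ, 0 < η → Bas S (fun J F A => ∀ (V₀ V₁ : Type) (P : V₀ → ℕ → PN)
      (z₀ : PtT F → V₀) (z₀' : LnT F → V₀) (z₁ : PtT F → V₁) (z₁' : LnT F → V₁)
      (lf : V₁ → V₀ → Fin 4 → ℝ) (g : ℕ → ℕ) (E : F.Ω × F.Ω → Prop),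
      (∀ v, TriN (P v)) → (∀ v i, (P v i).totalDegree ≤ 1) →
      (∀ ω, A ω → z₀ (ptr F J ω) = z₀' (slam F ⌊w₀ * J⌋₊ ω)) →
      (∀ ω, A ω → z₁ (ptr F J ω) = z₁' (slam F ⌊w₁ * J⌋₊ ω)) →
      (∀ ω, A ω → ∀ i < 2, |ntc F c P z₀ ω i| ≤ 1 / 2 ^ g i) →
      (∀ i < 3, |(g i : ℝ) - β i * J| ≤ φ * J) →
      (∀ e, E e → |sl2 (P (z₀ (ptr F J e.1)))| ≤ Real.exp (φ * J)) →
      (∀ e, E e → |nx F c P z₀ g e.1 2 - lfv F c P z₀ g ⌊w₀ * J⌋₊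
        (lf (z₁ (ptr F J e.1)) (z₀ (ptr F J e.1))) e.1| ≤ 1 / 2 ^ ⌊(fall - b) * J⌋₊) →
      (∀ e, E e → |nx F c P z₀ g e.1 2 - lfv F c P z₀ g ⌊w₀ * J⌋₊
        (lf (z₁ (ptr F J e.2)) (z₀ (ptr F J e.1))) e.1| ≤ 1 / 2 ^ ⌊(fall - b) * J⌋₊) →
      (∀ e, E e → ∀ i : Fin 4, |lf (z₁ (ptr F J e.1)) (z₀ (ptr F J e.1)) i| ≤ 2 ^ ⌊b * J⌋₊ ∧
        |lf (z₁ (ptr F J e.2)) (z₀ (ptr F J e.1)) i| ≤ 2 ^ ⌊b * J⌋₊) →
      (∀ e, E e → 1 / 2 ^ ⌊b * J⌋₊ ≤ |nt F ⌊w₀ * J⌋₊ e.1 - nt F ⌊w₀ * J⌋₊ e.2|) →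
      Pe (P2 (pA F A) (slam F ⌊w₀ * J⌋₊)) (fun e => E e ∧ E e.swap ∧
        |lf (z₁ (ptr F J e.1)) (z₀ (ptr F J e.1)) 3 -
          lf (z₁ (ptr F J e.2)) (z₀ (ptr F J e.1)) 3| < 1 / 2 ^ ⌊b' * J⌋₊) ≤ η) := by
  obtain ⟨φ, hφ, -, J₀, hfl⟩ := fal_flo hw0 (by exact_mod_cast hq.le) hh hb h1 h2 h3
    (h4 0 (by norm_num)) (h4 1 (by norm_num))
  refine ⟨φ, hφ, ?_⟩
  intro η hη
  obtain ⟨τd, hτd, Jd, hps⟩ := hpos
  obtain ⟨τ, hτ, J₁, hT⟩ := fal_ev (P1 := β 2) hw1 ⟨τd, hτd, Jd, hps⟩ hH2 he hA hq hq1 hN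
    (by linarith) hno η hη
  refine ⟨min τ τd, lt_min hτ hτd, max J₀ (max J₁ Jd), ?_⟩
  intro J hJ F A hSA V₀ V₁ P z₀ z₀' z₁ z₁' lf g E htri hdeg hc0 hc1 hps' hg hsl hown honl hsiz htsp
  have j0 : J₀ ≤ J := (le_max_left _ _).trans hJ
  have j1 : J₁ ≤ J := ((le_max_left _ _).trans (le_max_right _ _)).trans hJ
  have jd : Jd ≤ J := ((le_max_right _ _).trans (le_max_right _ _)).trans hJ
  obtain ⟨t, n1, n2, n3, n4, n5, n6, n7⟩ := hfl J j0 g (hg 0 (by norm_num)) (hg 1 (by norm_num))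
    (hg 2 (by norm_num))
  have hPA := hps J jd F A (S.mono (min_le_right _ _) hSA)
  have h1 := hT J j1 F A (S.mono (min_le_left _ _) hSA) V₀ V₁ P z₀ z₀'
    z₁ z₁' lf g ⌊b * J⌋₊ ⌊(fall - b) * J⌋₊ ⌊b' * J⌋₊ t htri hdeg hc0 hc1 hps' n1 n2 n3 n4 n5
  have hG : ∀ e, E e → Gd F c P z₀ z₁ lf g ⌊w₀ * J⌋₊ ⌊b * J⌋₊ ⌊(fall - b) * J⌋₊ e := fun e he =>
    ⟨hown e he, honl e he, hsiz e he, htsp e he,
      fun i hi => rnd_of hdeg htri n6 (by linarith [hsl e he]) i hi⟩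
  refine le_trans (Pool.K2S.Pe_mono (P2_isLaw (Pool.K2S.isLaw_cond F.isLaw hPA) _)
    fun e he => ?_) h1
  exact ⟨hG e he.1, hG e.swap he.2.1, he.2.2⟩

end Pool.PMF
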