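import Pool.Agent.H88.PM.Fal

/-!
# The rounding of the natural coordinates, and the letters of `PlnM`

`rnd_of`: the exact and the rounded natural coordinates of `c 0`, `c 1` are near, if the slope of the
chart of `c 1` over `c 0` is bounded. `fal_E`: the bad pairs in the letters of `PlnM`.
-/

set_option autoImplicit false

namespace Pool.PMF

open Finset Real MvPolynomial
open Pool.Agent.H49.Ent Pool.Agent.H32.Dense Pool.STK Pool.KA Pool.KSAT Pool.K2S Pool.PB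
  Pool.STAT Pool.GEN Pool.M3F Pool.KM7 Pool.S6C Pool.JPN
open Pool.PM (nx nt lev lfv)
open Pool.PM26 (Afl)
open Pool.PLN (pA p2 H2S)

variable {m J : ℕ} {F : Fam m J}

theorem eval_mid {P : PN} (hd : P.totalDegree ≤ 1) (x y : ℕ → ℝ) :
    eval x P + eval y P = 2 * eval (fun i => (x i + y i) / 2) P := by
  have h := eval_line hd x (fun i => y i - x i) (1 / 2)
  have e1 : (fun i => x i + 1 / 2 * (y i - x i)) = fun i => (x i + y i) / 2 := by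
    funext i
    ring
  have e2 : (fun i => x i + (y i - x i)) = y := by
    funext i
    ring
  rw [e1, e2] at h
  rw [h]
  ring

theorem eval_add {P : PN} (hd : P.totalDegree ≤ 1) (x v : ℕ → ℝ) :
    eval (fun i => x i + v i) P - eval x P = eval v P - eval (fun _ => 0) P := by
  have h1 := eval_mid hd (fun i => x i + v i) (fun _ => 0)
  have h2 := eval_mid hd x v
  simp only [add_zero] at h1
  linarith

/-- The slope of the chart of `c 1` over `c 0`. -/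
noncomputable def sl2 (Q : ℕ → PN) : ℝ :=
  eval (fun j => if j = 1 then (1 : ℝ) else 0) (Q 2) - eval (fun _ => (0 : ℝ)) (Q 2)

theorem x_px (c : ℕ → Fin m) (ω : F.Ω) (i : ℕ) :
    |F.x ω (c i) - px c (ptr F J ω) (i + 1)| ≤ 1 / 2 ^ J := by
  have hp : (0 : ℝ) < 2 ^ J := by positivity
  have e1 : px c (ptr F J ω) (i + 1) = ((⌊(2 : ℝ) ^ J * F.x ω (c i)⌋ : ℤ) : ℝ) / 2 ^ J := rfl
  rw [e1]
  have h1 := Int.floor_le ((2 : ℝ) ^ J * F.x ω (c i))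
  have h2 := (Int.lt_floor_add_one ((2 : ℝ) ^ J * F.x ω (c i))).le
  have h3 : F.x ω (c i) - ((⌊(2 : ℝ) ^ J * F.x ω (c i)⌋ : ℤ) : ℝ) / 2 ^ J =
      (2 ^ J * F.x ω (c i) - ((⌊(2 : ℝ) ^ J * F.x ω (c i)⌋ : ℤ) : ℝ)) / 2 ^ J := by
    field_simp
  rw [h3, abs_div, abs_of_pos hp]
  gcongr
  rw [abs_le]
  constructor <;> linarith

/-- **The rounding of the natural coordinates.** -/
theorem rnd_of {c : ℕ → Fin m} {V₀ : Type} {P : V₀ → ℕ → PN} {z₀ : PtT F → V₀} {g : ℕ → ℕ}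
    {h L : ℕ} (hQ : ∀ v i, (P v i).totalDegree ≤ 1) (ht : ∀ v, TriN (P v)) {ω : F.Ω}
    (hJ : ∀ i < 2, g i + L ≤ J) (hs : |sl2 (P (z₀ (ptr F J ω)))| + 1 ≤ 2 ^ h) (i : ℕ)
    (hi : i < 2) :
    |nea F c (P (z₀ (ptr F J ω))) g ω i - nx F c P z₀ g ω i| ≤ 2 ^ h / 2 ^ L := by
  have hpJ : (0 : ℝ) < 2 ^ J := by positivity
  have hsc : ∀ i < 2, (2 : ℝ) ^ g i * (1 / 2 ^ J) ≤ 1 / 2 ^ L := by
    intro i hi
    have := hJ i hi
    rw [mul_one_div, div_le_div_iff₀ hpJ (by positivity), ← pow_add, one_mul]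
    exact pow_le_pow_right₀ (by norm_num) this
  have hh : (1 : ℝ) ≤ 2 ^ h := one_le_pow₀ (by norm_num)
  obtain ⟨Q, hQ'⟩ : ∃ Q, Q = P (z₀ (ptr F J ω)) := ⟨_, rfl⟩
  have e0 : xea F c ω 0 = px c (ptr F J ω) 0 := rfl
  have e1 : xea F c ω 1 = F.x ω (c 0) := rfl
  have hd := hQ (z₀ (ptr F J ω))
  have htri := ht (z₀ (ptr F J ω))
  rw [← hQ'] at hs hd htri ⊢
  have hnx : nx F c P z₀ g ω i = 2 ^ g i * (px c (ptr F J ω) (i + 1) -
      eval (px c (ptr F J ω)) (Q (i + 1))) := by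
    rw [hQ']
    rfl
  have hp : (0 : ℝ) < 2 ^ g i := by positivity
  rw [hnx]
  have h1 := x_px c ω i
  have h2 := x_px c ω 0
  unfold nea
  rw [← mul_sub, abs_mul, abs_of_pos hp]
  have key : |F.x ω (c i) - eval (xea F c ω) (Q (i + 1)) -
      (px c (ptr F J ω) (i + 1) - eval (px c (ptr F J ω)) (Q (i + 1)))| ≤ 2 ^ h * (1 / 2 ^ J) := by
    have h3 : |eval (xea F c ω) (Q (i + 1)) - eval (px c (ptr F J ω)) (Q (i + 1))| ≤
        |sl2 Q| * (1 / 2 ^ J) := by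
      have hi' : i = 0 ∨ i = 1 := by omega
      rcases hi' with rfl | rfl
      · have h4 : eval (xea F c ω) (Q (0 + 1)) = eval (px c (ptr F J ω)) (Q (0 + 1)) := by
          refine eval₂Hom_congr' rfl (fun j hj _ => ?_) rfl
          have := mem_range.1 (htri 1 hj)
          have hj0 : j = 0 := by omega
          rw [hj0, e0]
        rw [h4, sub_self, abs_zero]
        positivity
      · have h4 : eval (xea F c ω) (Q (1 + 1)) = eval (fun j => px c (ptr F J ω) j +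
            (F.x ω (c 0) - px c (ptr F J ω) (0 + 1)) * (if j = 1 then (1 : ℝ) else 0))
              (Q (1 + 1)) := by
          refine eval₂Hom_congr' rfl (fun j hj _ => ?_) rfl
          have := mem_range.1 (htri 2 hj)
          have hj0 : j = 0 ∨ j = 1 := by omega
          rcases hj0 with rfl | rfl
          · rw [e0]
            simp
          · rw [e1]
            simp
        rw [h4, eval_line (hd _), eval_add (hd _)]
        have h5 : eval (px c (ptr F J ω)) (Q (1 + 1)) + (F.x ω (c 0) -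
            px c (ptr F J ω) (0 + 1)) * (eval (fun j => if j = 1 then (1 : ℝ) else 0)
              (Q (1 + 1)) - eval (fun _ => (0 : ℝ)) (Q (1 + 1))) -
            eval (px c (ptr F J ω)) (Q (1 + 1)) =
            sl2 Q * (F.x ω (c 0) - px c (ptr F J ω) (0 + 1)) := by
          unfold sl2
          ring
        rw [h5, abs_mul]
        exact mul_le_mul_of_nonneg_left h2 (abs_nonneg _)
    have h6 : F.x ω (c i) - eval (xea F c ω) (Q (i + 1)) -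
        (px c (ptr F J ω) (i + 1) - eval (px c (ptr F J ω)) (Q (i + 1))) =
        (F.x ω (c i) - px c (ptr F J ω) (i + 1)) -
          (eval (xea F c ω) (Q (i + 1)) - eval (px c (ptr F J ω)) (Q (i + 1))) := by ring
    rw [h6]
    refine (abs_sub _ _).trans ?_
    have h7 : (|sl2 Q| + 1) * (1 / (2 : ℝ) ^ J) ≤ 2 ^ h * (1 / 2 ^ J) :=
      mul_le_mul_of_nonneg_right hs (by positivity)
    linarith
  calc (2 : ℝ) ^ g i * |F.x ω (c i) - eval (xea F c ω) (Q (i + 1)) -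
        (px c (ptr F J ω) (i + 1) - eval (px c (ptr F J ω)) (Q (i + 1)))| ≤
        2 ^ g i * (2 ^ h * (1 / 2 ^ J)) := mul_le_mul_of_nonneg_left key hp.le
    _ = 2 ^ h * (2 ^ g i * (1 / 2 ^ J)) := by ring
    _ ≤ 2 ^ h * (1 / 2 ^ L) := mul_le_mul_of_nonneg_left (hsc i hi) (by positivity)
    _ = 2 ^ h / 2 ^ L := by ring

/-- **The slopes of the sheets of `c 2` are separated**, in the letters of `PlnM`. -/
theorem fal_E {S : PCl m} {c : ℕ → Fin m} {w₀ w₁ e P1 h₀ : ℝ} {N : ℚ → ℚ → ℝ} {q : ℚ}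
    (hw1 : w₀ ≤ 1) (hpos : Bas S (fun _ F A => 0 < Pe F.p A)) (hH2 : H2S S w₀ w₁ e) (he : 0 ≤ e)
    (hA : ActB N S (c 0)) (hq : 0 < q) (hq1 : q ≤ 1) (hN : 2 * e < N 0 q * Real.log 2)
    (hP1 : 0 ≤ P1 + h₀)
    (hno : Bas S (fun J F A => ∀ P : ℕ, (P1 + h₀) * J ≤ P → P ≤ J →
      ¬ Afl F c 2 ⌊w₀ * J⌋₊ P A)) :
    ∀ η : ℝ, 0 < η → Bas S (fun J F A => ∀ (V₀ V₁ : Type) (P : V₀ → ℕ → PN)
      (z₀ : PtT F → V₀) (z₀' : LnT F → V₀) (z₁ : PtT F → V₁) (z₁' : LnT F → V₁)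
      (lf : V₁ → V₀ → Fin 2 → Fin 4 → ℝ) (g : ℕ → ℕ) (h L κ t : ℕ) (E : F.Ω × F.Ω → Prop),
      (∀ v, TriN (P v)) → (∀ v i, (P v i).totalDegree ≤ 1) →
      (∀ ω, A ω → z₀ (ptr F J ω) = z₀' (slam F ⌊w₀ * J⌋₊ ω)) →
      (∀ ω, A ω → z₁ (ptr F J ω) = z₁' (slam F ⌊w₁ * J⌋₊ ω)) →
      (∀ ω, A ω → ∀ i < 2, |ntc F c P z₀ ω i| ≤ 1 / 2 ^ g i) → ⌊w₀ * J⌋₊ ≤ g 0 + h →
      (P1 + h₀) * J + 9 ≤ g 2 + t → g 2 + t ≤ J → ⌊(q : ℝ) * J⌋₊ + t + 3 * h + 8 ≤ κ →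
      ⌊(q : ℝ) * J⌋₊ + t + 6 * h + 12 ≤ L → (∀ i < 2, g i + L ≤ J) →
      (∀ e, E e → |sl2 (P (z₀ (ptr F J e.1)))| + 1 ≤ 2 ^ h) →
      (∀ e, E e → |nx F c P z₀ g e.1 2 - lfv F c P z₀ g ⌊w₀ * J⌋₊
        (lf (z₁ (ptr F J e.1)) (z₀ (ptr F J e.1)) 0) e.1| ≤ 1 / 2 ^ L) →
      (∀ e, E e → |nx F c P z₀ g e.1 2 - lfv F c P z₀ g ⌊w₀ * J⌋₊
        (lf (z₁ (ptr F J e.2)) (z₀ (ptr F J e.1)) 0) e.1| ≤ 1 / 2 ^ L) →
      (∀ e, E e → ∀ i : Fin 4, |lf (z₁ (ptr F J e.1)) (z₀ (ptr F J e.1)) 0 i| ≤ 2 ^ h ∧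
        |lf (z₁ (ptr F J e.2)) (z₀ (ptr F J e.1)) 0 i| ≤ 2 ^ h) →
      (∀ e, E e → 1 / 2 ^ h ≤ |nt F ⌊w₀ * J⌋₊ e.1 - nt F ⌊w₀ * J⌋₊ e.2|) →
      Pe (P2 (pA F A) (slam F ⌊w₀ * J⌋₊)) (fun e => E e ∧ E e.swap ∧
        |lf (z₁ (ptr F J e.1)) (z₀ (ptr F J e.1)) 0 3 -
          lf (z₁ (ptr F J e.2)) (z₀ (ptr F J e.1)) 0 3| < 1 / 2 ^ κ) ≤ η) := by
  intro η hη
  obtain ⟨τd, hτd, Jd, hps⟩ := hpos
  obtain ⟨τ, hτ, J₁, hT⟩ := fal_ev hw1 ⟨τd, hτd, Jd, hps⟩ hH2 he hA hq hq1 hN hP1 hno η hη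
  refine ⟨min τ τd, lt_min hτ hτd, max J₁ Jd, ?_⟩
  intro J hJ F A hSA V₀ V₁ P z₀ z₀' z₁ z₁' lf g h L κ t E htri hdeg hc0 hc1 hps' hg0 hgt hgJ hκ
    hL hgL hsl hown honl hsiz htsp
  have hPA := hps J ((le_max_right _ _).trans hJ) F A (S.mono (min_le_right _ _) hSA)
  have h1 := hT J ((le_max_left _ _).trans hJ) F A (S.mono (min_le_left _ _) hSA) V₀ V₁ P z₀ z₀'
    z₁ z₁' (fun K ζ => lf K ζ 0) g h L κ t htri hdeg hc0 hc1 hps' hg0 hgt hgJ hκ hL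
  have hG : ∀ e, E e → Gd F c P z₀ z₁ (fun K ζ => lf K ζ 0) g ⌊w₀ * J⌋₊ h L e := fun e he =>
    ⟨hown e he, honl e he, hsiz e he, htsp e he,
      fun i hi => rnd_of hdeg htri hgL (hsl e he) i hi⟩
  refine le_trans (Pool.K2S.Pe_mono (P2_isLaw (Pool.K2S.isLaw_cond F.isLaw hPA) _)
    fun e he => ?_) h1
  exact ⟨hG e he.1, hG e.swap he.2.1, he.2.2⟩

end Pool.PMF
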